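import Pool.Agent.Y206.Q.Gen
import Pool.Agent.Y689.QG.Grid
import Pool.Agent.Y469.QG.Lines

set_option autoImplicit false
open MvPolynomial
open Pool.Agent.Helper947.Geo
open Pool.Agent.Y206.G
open Pool.Agent.Y689.QG

namespace Pool.Agent.Y206.Q

/-- projections of a family from a general point -/
theorem projv_pair {K : Type} [Fintype K] (z : K → Fin 4 → ℂ)
    (hz : ∀ k l, k ≠ l → LinearIndependent ℂ ![z k, z l]) (h0 : ∀ k, z k ≠ 0) :
    ∃ φ : MvPolynomial (Fin 4) ℂ, φ ≠ 0 ∧ ∀ P : Fin 4 → ℂ, eval P φ ≠ 0 →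
      P (Fin.last 3) ≠ 0 ∧
      (∀ k l, k ≠ l → LinearIndependent ℂ ![projv P (z k), projv P (z l)]) ∧
      (∀ k, projv P (z k) ≠ 0) := by
  classical
  choose e he0 he1 he2 using fun k l => pi_exists_orth (le_refl 3) (z k) (z l)
  refine ⟨X (Fin.last 3) * ∏ k, ∏ l, lf (e k l), ?_, ?_⟩
  · refine mul_ne_zero (X_ne_zero _) ?_
    rw [Finset.prod_ne_zero_iff]
    intro k _
    rw [Finset.prod_ne_zero_iff]
    intro l _
    exact pi_lf_ne (he0 k l)
  · intro P hP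
    rw [map_mul, eval_X, map_prod] at hP
    have hPl : P (Fin.last 3) ≠ 0 := left_ne_zero_of_mul hP
    have hPe : ∀ k l, e k l ⬝ᵥ P ≠ 0 := by
      intro k l
      have h1 := Finset.prod_ne_zero_iff.1 (right_ne_zero_of_mul hP) k (Finset.mem_univ k)
      rw [map_prod] at h1
      have h2 := Finset.prod_ne_zero_iff.1 h1 l (Finset.mem_univ l)
      rwa [eval_lf] at h2
    refine ⟨hPl, ?_, ?_⟩
    · intro k l hkl
      rw [LinearIndependent.pair_iff]
      intro s t hst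
      have h1 : projv P (s • z k + t • z l) = 0 := by
        have h2 := (pi_L P).map_add (s • z k) (t • z l)
        rw [map_smul, map_smul] at h2
        exact h2.trans hst
      obtain ⟨c, hc⟩ := projv_ker P _ hPl h1
      have hc0 : c = 0 := by
        have h3 := congrArg (fun v => e k l ⬝ᵥ v) hc
        simp only [dotProduct_add, dotProduct_smul, he1, he2, smul_eq_mul, mul_zero,
          add_zero] at h3
        rcases mul_eq_zero.1 h3.symm with h | h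
        · exact h
        · exact absurd h (hPe k l)
      rw [hc0, zero_smul] at hc
      exact LinearIndependent.pair_iff.1 (hz k l hkl) s t hc
    · intro k hk
      obtain ⟨c, hc⟩ := projv_ker P _ hPl hk
      have hc0 : c = 0 := by
        have h3 := congrArg (fun v => e k k ⬝ᵥ v) hc
        simp only [dotProduct_smul, he1, smul_eq_mul] at h3
        rcases mul_eq_zero.1 h3.symm with h | h
        · exact h
        · exact absurd h (hPe k k)
      rw [hc0, zero_smul] at hc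
      exact h0 k hc

open Classical in
/-- the points on the line `s₀` -/
noncomputable def cls {K : Type} [Fintype K] (s : K → Fin 2 → ℂ) (s₀ : Fin 2 → ℂ) : Finset K :=
  Finset.univ.filter fun k => dt (s k) s₀ = 0

theorem mem_cls {K : Type} [Fintype K] {s : K → Fin 2 → ℂ} {s₀ : Fin 2 → ℂ} {k : K} :
    k ∈ cls s s₀ ↔ dt (s k) s₀ = 0 := by
  simp [cls]

theorem card_cls {K : Type} [Fintype K] (s : K → Fin 2 → ℂ) (s₀ : Fin 2 → ℂ) :
    Nat.card {k // dt (s k) s₀ = 0} = (cls s s₀).card := by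
  classical
  rw [Nat.card_eq_fintype_card, Fintype.card_subtype]
  congr 1

/-- the form with zeros the points on the line `s₀` -/
noncomputable def Dp {K : Type} [Fintype K] (s t : K → Fin 2 → ℂ) (s₀ : Fin 2 → ℂ) :
    MvPolynomial (Fin 2) ℂ := ∏ k ∈ cls s s₀, lf ![-(t k 1), t k 0]

theorem eval_lf2 (u x : Fin 2 → ℂ) : eval x (lf ![-(u 1), u 0]) = dt u x := by
  rw [eval_lf]
  simp only [dotProduct, Fin.sum_univ_two, dt, Matrix.cons_val_zero, Matrix.cons_val_one]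
  ring

theorem Dp_hom {K : Type} [Fintype K] (s t : K → Fin 2 → ℂ) (s₀ : Fin 2 → ℂ) :
    (Dp s t s₀).IsHomogeneous (cls s s₀).card := by
  have h := IsHomogeneous.prod (cls s s₀) (fun k => lf ![-(t k 1), t k 0]) (fun _ => 1)
    (fun k _ => lf_homog _)
  simpa [Dp] using h

theorem eval_Dp {K : Type} [Fintype K] (s t : K → Fin 2 → ℂ) (s₀ x : Fin 2 → ℂ) :
    eval x (Dp s t s₀) = 0 ↔ ∃ k, dt (s k) s₀ = 0 ∧ dt (t k) x = 0 := by
  rw [Dp, map_prod, Finset.prod_eq_zero_iff]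
  simp only [eval_lf2, mem_cls]

theorem lf2_ne {u : Fin 2 → ℂ} (hu : u ≠ 0) : lf ![-(u 1), u 0] ≠ 0 := by
  apply lf_ne
  intro h
  apply hu
  funext i
  fin_cases i
  · simpa using congrFun h 1
  · simpa using congrFun h 0

theorem Dp_ne {K : Type} [Fintype K] (s t : K → Fin 2 → ℂ) (ht : ∀ k, t k ≠ 0)
    (s₀ : Fin 2 → ℂ) : Dp s t s₀ ≠ 0 :=
  Finset.prod_ne_zero_iff.mpr fun k _ => lf2_ne (ht k)

/-! ### swapping the rulings -/

/-- the swapped basis -/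
def sw (e : Fin 2 → Fin 2 → Fin 4 → ℂ) : Fin 2 → Fin 2 → Fin 4 → ℂ := fun i j => e j i

theorem E_sw (e : Fin 2 → Fin 2 → Fin 4 → ℂ) (s t : Fin 2 → ℂ) : E (sw e) t s = E e s t := by
  simp only [E, sw]
  module

theorem Basis4.sw {e : Fin 2 → Fin 2 → Fin 4 → ℂ} (he : Basis4 e) : Basis4 (sw e) := by
  have h := LinearIndependent.comp he (Prod.swap : Fin 2 × Fin 2 → Fin 2 × Fin 2)
    Prod.swap_injective
  exact h

theorem Pts.sw {K : Type} {s t : K → Fin 2 → ℂ} (h : Pts s t) : Pts t s :=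
  ⟨h.2.1, h.1, fun k l hkl => (h.2.2 k l hkl).symm⟩

theorem Closed.sw {K : Type} {s t : K → Fin 2 → ℂ} (h : Closed s t) : Closed t s := by
  intro j k
  obtain ⟨i, h1, h2⟩ := h k j
  exact ⟨i, h2, h1⟩

theorem gep_sw {K : Type} {e : Fin 2 → Fin 2 → Fin 4 → ℂ} {s t : K → Fin 2 → ℂ} {a b : ℕ}
    (h : Gep (fun k => E e (s k) (t k)) a b) : Gep (fun k => E (Q.sw e) (t k) (s k)) a b := by
  simpa only [E_sw] using h

/-! ### points -/

theorem pts_pair (hP : S_PAIR) {e : Fin 2 → Fin 2 → Fin 4 → ℂ} (he : Basis4 e) {K : Type}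
    {s t : K → Fin 2 → ℂ} (h : Pts s t) (k l : K) (hkl : k ≠ l) :
    LinearIndependent ℂ ![E e (s k) (t k), E e (s l) (t l)] :=
  (hP e he _ _ _ _ (h.1 k) (h.2.1 k) (h.1 l) (h.2.1 l)).mpr (h.2.2 k l hkl)

theorem pts_ne {e : Fin 2 → Fin 2 → Fin 4 → ℂ} (he : Basis4 e) {K : Type}
    {s t : K → Fin 2 → ℂ} (h : Pts s t) (k : K) : E e (s k) (t k) ≠ 0 :=
  E_ne he (h.1 k) (h.2.1 k)

theorem pts_sub {K : Type} {s t : K → Fin 2 → ℂ} (h : Pts s t) (p : K → Prop) :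
    Pts (fun k : {k // p k} => s k.1) (fun k : {k // p k} => t k.1) :=
  ⟨fun k => h.1 k.1, fun k => h.2.1 k.1, fun k l hkl => h.2.2 k.1 l.1 fun h1 =>
    hkl (Subtype.ext h1)⟩

/-- restriction of a form of the ideal to a line with the right number of points -/
theorem line_form (hB : S_BIN) {e : Fin 2 → Fin 2 → Fin 4 → ℂ} {K : Type} [Fintype K]
    {s t : K → Fin 2 → ℂ} (h : Pts s t) (P : Fin 4 → ℂ) (H : MvPolynomial (Fin 3) ℂ)
    (s₀ : Fin 2 → ℂ) (hs₀ : s₀ ≠ 0) (hH : H.IsHomogeneous (cls s s₀).card)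
    (hv : ∀ k, eval (projv P (E e (s k) (t k))) H = 0) :
    ∃ c : ℂ, ∀ x, eval (projv P (E e s₀ x)) H = c * eval x (Dp s t s₀) := by
  classical
  set u : Fin 2 → Fin 3 → ℂ := fun j => projv P (E e s₀ (Pi.single j 1)) with hu
  have hux : ∀ x : Fin 2 → ℂ, ∑ j, x j • u j = projv P (E e s₀ x) := by
    intro x
    rw [Fin.sum_univ_two]
    funext i
    simp only [hu, projv, E, Pi.add_apply, Pi.smul_apply, smul_eq_mul, Pi.single_eq_same,
      ne_eq, zero_ne_one, not_false_eq_true, Pi.single_eq_of_ne, one_ne_zero, mul_one, mul_zero,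
      zero_mul, add_zero, zero_add]
    ring
  obtain ⟨c, hc⟩ := hB (sub u H) K (cls s s₀) t (sub_hom u H _ hH) (by
    intro i hi j hj hij
    rcases h.2.2 i j hij with h1 | h1
    · exfalso
      apply h1
      exact dt_trans hs₀ (mem_cls.mp hi) (dt_comm0 (mem_cls.mp hj))
    · exact h1) (fun i _ => h.2.1 i) (by
    intro i hi
    rw [eval_sub, hux]
    obtain ⟨c, hc0, hc⟩ := prop_dt (dt_comm0 (mem_cls.mp hi)) hs₀ (h.1 i)
    have e1 : projv P (E e s₀ (t i)) = c • projv P (E e (s i) (t i)) := by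
      have h2 : E e s₀ (t i) = c • E e (s i) (t i) := by
        conv_lhs => rw [hc]
        have := E_smul e c 1 (s i) (t i)
        rw [one_smul, mul_one] at this
        exact this
      rw [h2]
      exact (pi_L P).map_smul c _
    rw [e1, rc_eval_smul H _ hH, hv i, mul_zero])
  refine ⟨c, fun x => ?_⟩
  have h1 := congrArg (eval x) hc
  rw [eval_sub, hux, map_mul, eval_C] at h1
  exact h1

/-- a form of the ideal not vanishing on a given full line -/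
theorem gep_form (hP : S_PAIR) (hL : S_LINK) (hN : S_NV) (hB : S_BIN)
    {e : Fin 2 → Fin 2 → Fin 4 → ℂ} (he : Basis4 e) {K : Type} [Fintype K]
    {s t : K → Fin 2 → ℂ} (h : Pts s t) {a b : ℕ} (ha : 1 ≤ a) (hab : a ≤ b)
    (hG : Gep (fun k => E e (s k) (t k)) a b) (s₀ : Fin 2 → ℂ) (hs₀ : s₀ ≠ 0)
    (hn : (cls s s₀).card = a ∨ (cls s s₀).card = b) :
    ∃ φ : MvPolynomial (Fin 4) ℂ, φ ≠ 0 ∧ ∀ P, eval P φ ≠ 0 → ∃ H : MvPolynomial (Fin 3) ℂ,
      H.IsHomogeneous (cls s s₀).card ∧ (∀ k, eval (projv P (E e (s k) (t k))) H = 0) ∧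
      ∃ c : ℂ, c ≠ 0 ∧ ∀ x, eval (projv P (E e s₀ x)) H = c * eval x (Dp s t s₀) := by
  classical
  obtain ⟨φ₁, hφ₁, h1⟩ := hG
  obtain ⟨φ₂, hφ₂, h2⟩ := hL e he K s t h.1 h.2.1 s₀ hs₀
  obtain ⟨φ₃, hφ₃, h3⟩ := projv_pair (fun k => E e (s k) (t k)) (pts_pair hP he h) (pts_ne he h)
  refine ⟨φ₁ * φ₂ * φ₃, mul_ne_zero (mul_ne_zero hφ₁ hφ₂) hφ₃, ?_⟩
  intro P hPφ
  rw [map_mul, map_mul] at hPφ
  obtain ⟨F, G, hF, hG, hI⟩ := h1 P (left_ne_zero_of_mul (left_ne_zero_of_mul hPφ))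
  obtain ⟨-, η, hη0, hη1, hη2, hη3⟩ := h2 P (right_ne_zero_of_mul (left_ne_zero_of_mul hPφ))
  obtain ⟨-, hpair, hnz⟩ := h3 P (right_ne_zero_of_mul hPφ)
  have hcard : Nat.card {k // η ⬝ᵥ projv P (E e (s k) (t k)) = 0} = (cls s s₀).card := by
    rw [← card_cls]
    exact Nat.card_congr (Equiv.subtypeEquivRight hη3)
  obtain ⟨H, hH1, hH2, hH3⟩ := hN K (fun k => projv P (E e (s k) (t k))) a b F G hpair hnz hF hG
    hI ha hab η hη0 (by rw [hcard]; exact hn)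
  rw [hcard] at hH2
  have hv : ∀ k, eval (projv P (E e (s k) (t k))) H = 0 := by
    intro k
    have := (hI H).mp hH1 k 1
    rwa [one_smul] at this
  obtain ⟨c, hc⟩ := line_form hB h P H s₀ hs₀ hH2 hv
  refine ⟨H, hH2, hv, c, ?_, hc⟩
  rintro rfl
  apply hH3
  apply dvd_of_vanish (Pool.Agent.Y469.QG.lf_prime hη0).irreducible
  intro y hy
  rw [eval_lf] at hy
  obtain ⟨x, rfl⟩ := hη2 y hy
  rw [hc, zero_mul]

/-- **peeling**: a line with at least `a` points -/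
theorem gep_line (hP : S_PAIR) (hL : S_LINK) (hF : S_FULL)
    {e : Fin 2 → Fin 2 → Fin 4 → ℂ} (he : Basis4 e) {K : Type} [Fintype K]
    {s t : K → Fin 2 → ℂ} (h : Pts s t) {a b : ℕ} (ha : 1 ≤ a) (hab : a ≤ b)
    (hG : Gep (fun k => E e (s k) (t k)) a b) (s₀ : Fin 2 → ℂ) (hs₀ : s₀ ≠ 0)
    (hn : a ≤ (cls s s₀).card) :
    ((cls s s₀).card = b ∧
      Gep (fun k : {k // dt (s k) s₀ ≠ 0} => E e (s k.1) (t k.1)) (a - 1) b) ∨
    ((cls s s₀).card = a ∧ a ≠ b ∧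
      Gep (fun k : {k // dt (s k) s₀ ≠ 0} => E e (s k.1) (t k.1)) a (b - 1)) := by
  classical
  obtain ⟨φ₁, hφ₁, h1⟩ := hG
  obtain ⟨φ₂, hφ₂, h2⟩ := hL e he K s t h.1 h.2.1 s₀ hs₀
  obtain ⟨φ₃, hφ₃, h3⟩ := projv_pair (fun k => E e (s k) (t k)) (pts_pair hP he h) (pts_ne he h)
  have hφ : φ₁ * φ₂ * φ₃ ≠ 0 := mul_ne_zero (mul_ne_zero hφ₁ hφ₂) hφ₃
  have key : ∀ P, eval P (φ₁ * φ₂ * φ₃) ≠ 0 →
      ((cls s s₀).card = b ∧ ∃ F G : MvPolynomial (Fin 3) ℂ, F.IsHomogeneous (a - 1) ∧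
        G.IsHomogeneous b ∧ IsVan (fun k : {k // dt (s k) s₀ ≠ 0} =>
          projv P (E e (s k.1) (t k.1))) (Ideal.span {F, G})) ∨
      ((cls s s₀).card = a ∧ ∃ F G : MvPolynomial (Fin 3) ℂ, F.IsHomogeneous a ∧
        G.IsHomogeneous (b - 1) ∧ IsVan (fun k : {k // dt (s k) s₀ ≠ 0} =>
          projv P (E e (s k.1) (t k.1))) (Ideal.span {F, G})) := by
    intro P hPφ
    rw [map_mul, map_mul] at hPφ
    obtain ⟨F, G, hF', hG, hI⟩ := h1 P (left_ne_zero_of_mul (left_ne_zero_of_mul hPφ))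
    obtain ⟨-, η, hη0, hη1, hη2, hη3⟩ := h2 P (right_ne_zero_of_mul (left_ne_zero_of_mul hPφ))
    obtain ⟨-, hpair, hnz⟩ := h3 P (right_ne_zero_of_mul hPφ)
    have hcard : Nat.card {k // η ⬝ᵥ projv P (E e (s k) (t k)) = 0} = (cls s s₀).card := by
      rw [← card_cls]
      exact Nat.card_congr (Equiv.subtypeEquivRight hη3)
    have htr : ∀ I : Ideal (MvPolynomial (Fin 3) ℂ),
        IsVan (fun k : {k // η ⬝ᵥ projv P (E e (s k) (t k)) ≠ 0} =>
          projv P (E e (s k.1) (t k.1))) I →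
        IsVan (fun k : {k // dt (s k) s₀ ≠ 0} => projv P (E e (s k.1) (t k.1))) I := by
      intro I hI' f
      rw [hI' f]
      constructor
      · intro h4 k t'
        exact h4 ⟨k.1, fun h5 => k.2 ((hη3 k.1).mp h5)⟩ t'
      · intro h4 k t'
        exact h4 ⟨k.1, fun h5 => k.2 ((hη3 k.1).mpr h5)⟩ t'
    rcases hF K (fun k => projv P (E e (s k) (t k))) a b F G hpair hnz hF' hG hI ha hab η hη0
      (by rw [hcard]; exact hn) with ⟨h4, F', h5, h6⟩ | ⟨h4, G', h5, h6⟩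
    · left
      rw [hcard] at h4
      exact ⟨h4, F', G, h5, hG, htr _ h6⟩
    · right
      rw [hcard] at h4
      exact ⟨h4, F, G', hF', h5, htr _ h6⟩
  by_cases hb : (cls s s₀).card = b
  · left
    refine ⟨hb, φ₁ * φ₂ * φ₃, hφ, fun P hPφ => ?_⟩
    rcases key P hPφ with ⟨-, h4⟩ | ⟨h4, F, G, h5, h6, h7⟩
    · exact h4
    · have hab' : a = b := h4.symm.trans hb
      subst hab'
      exact ⟨G, F, h6, h5, by rw [Set.pair_comm]; exact h7⟩
  · right
    obtain ⟨P₀, hP₀⟩ := g4_exists_ne _ hφ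
    have hca : (cls s s₀).card = a := by
      rcases key P₀ hP₀ with ⟨h4, -⟩ | ⟨h4, -⟩
      · exact absurd h4 hb
      · exact h4
    refine ⟨hca, fun h4 => hb (hca.trans h4), φ₁ * φ₂ * φ₃, hφ, fun P hPφ => ?_⟩
    rcases key P hPφ with ⟨h4, -⟩ | ⟨-, h4⟩
    · exact absurd h4 hb
    · exact h4

/-- three or more full lines of one family: the set is closed -/
theorem dt_closed (hP : S_PAIR) (hL : S_LINK) (hN : S_NV) (hB : S_BIN) (hT : S_DTT)
    {e : Fin 2 → Fin 2 → Fin 4 → ℂ} (he : Basis4 e) {K : Type} [Fintype K]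
    {s t : K → Fin 2 → ℂ} (h : Pts s t) {a b n : ℕ} (ha : 1 ≤ a) (hab : a ≤ b)
    (hG : Gep (fun k => E e (s k) (t k)) a b) (hn : n = a ∨ n = b)
    (hcl : ∀ k, (cls s (s k)).card = n)
    (h3 : ∀ j k, ∃ r, dt (s r) (s j) ≠ 0 ∧ dt (s r) (s k) ≠ 0) : Closed s t := by
  classical
  intro j k
  by_cases hjk : dt (s k) (s j) = 0
  · refine ⟨k, hjk, ?_⟩
    simp only [dt]; ring
  obtain ⟨r, hr1, hr2⟩ := h3 j k
  obtain ⟨φ, hφ, hH⟩ := gep_form hP hL hN hB he h ha hab hG (s k) (h.1 k) (by rw [hcl]; exact hn)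
  have hdc : ∀ x y : Fin 2 → ℂ, dt x y ≠ 0 → dt y x ≠ 0 := fun x y hxy h0 => hxy (dt_comm0 h0)
  have key := hT e he n ![s k, s j, s r] (by
      intro i i' hii
      fin_cases i <;> fin_cases i' <;> simp at hii ⊢
      · exact hjk
      · exact hdc _ _ hr2
      · exact hdc _ _ hjk
      · exact hdc _ _ hr1
      · exact hr2
      · exact hr1) ![Dp s t (s k), Dp s t (s j), Dp s t (s r)] (by
      intro i
      fin_cases i
      · have := Dp_hom s t (s k); rw [hcl] at this; exact this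
      · have := Dp_hom s t (s j); rw [hcl] at this; exact this
      · have := Dp_hom s t (s r); rw [hcl] at this; exact this) (by
      intro i
      fin_cases i
      · exact Dp_ne s t h.2.1 _
      · exact Dp_ne s t h.2.1 _
      · exact Dp_ne s t h.2.1 _) φ hφ (by
      intro P hPφ
      obtain ⟨H, hH1, hH2, c, hc0, hc⟩ := hH P hPφ
      rw [hcl] at hH1
      obtain ⟨c₁, hc₁⟩ := line_form hB h P H (s j) (h.1 j) (by rw [hcl]; exact hH1) hH2
      obtain ⟨c₂, hc₂⟩ := line_form hB h P H (s r) (h.1 r) (by rw [hcl]; exact hH1) hH2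
      refine ⟨H, ![c, c₁, c₂], hH1, hc0, ?_⟩
      intro i x
      fin_cases i
      · exact hc x
      · exact hc₁ x
      · exact hc₂ x)
  have h4 := key (t k) ((eval_Dp s t (s k) (t k)).mpr ⟨k, by simp only [dt]; ring, by
    simp only [dt]; ring⟩)
  obtain ⟨i, hi1, hi2⟩ := (eval_Dp s t (s j) (t k)).mp h4
  exact ⟨i, hi1, hi2⟩

/-- two full lines of one family and one of the other with disjoint sets of points: impossible -/
theorem dt_mixed (hP : S_PAIR) (hL : S_LINK) (hN : S_NV) (hB : S_BIN) (hM : S_DTM)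
    {e : Fin 2 → Fin 2 → Fin 4 → ℂ} (he : Basis4 e) {K : Type} [Fintype K]
    {s t : K → Fin 2 → ℂ} (h : Pts s t) {a b n : ℕ} (ha : 1 ≤ a) (hab : a ≤ b)
    (hG : Gep (fun k => E e (s k) (t k)) a b) (hn : n = a ∨ n = b)
    (s₁ s₂ y : Fin 2 → ℂ) (hs₁ : s₁ ≠ 0) (hs₂ : s₂ ≠ 0) (hy : y ≠ 0) (hd : dt s₁ s₂ ≠ 0)
    (h1 : (cls s s₁).card = n) (h2 : (cls s s₂).card = n) (h3 : (cls t y).card = n)
    (h4 : ∀ k, dt (s k) s₁ = 0 → dt (t k) y ≠ 0) (h5 : ∀ k, dt (s k) s₂ = 0 → dt (t k) y ≠ 0) :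
    False := by
  classical
  have hn1 : 1 ≤ n := by rcases hn with rfl | rfl <;> omega
  obtain ⟨φ, hφ, hH⟩ := gep_form hP hL hN hB he.sw h.sw ha hab (gep_sw hG) y hy
    (by rw [h3]; exact hn)
  refine hM e he n hn1 s₁ s₂ y hd (Dp s t s₁) (Dp s t s₂) (Dp t s y) ?_ ?_ ?_ ?_ ?_ ?_ ?_ φ hφ ?_
  · have := Dp_hom s t s₁; rwa [h1] at this
  · have := Dp_hom s t s₂; rwa [h2] at this
  · have := Dp_hom t s y; rwa [h3] at this
  · intro h0
    obtain ⟨k, hk1, hk2⟩ := (eval_Dp s t s₁ y).mp h0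
    exact h4 k hk1 hk2
  · intro h0
    obtain ⟨k, hk1, hk2⟩ := (eval_Dp s t s₂ y).mp h0
    exact h5 k hk1 hk2
  · intro h0
    obtain ⟨k, hk1, hk2⟩ := (eval_Dp t s y s₁).mp h0
    exact h4 k hk2 hk1
  · intro h0
    obtain ⟨k, hk1, hk2⟩ := (eval_Dp t s y s₂).mp h0
    exact h5 k hk2 hk1
  · intro P hPφ
    obtain ⟨H, hH1, hH2, c, hc0, hc⟩ := hH P hPφ
    simp only [E_sw] at hH2 hc
    rw [h3] at hH1
    obtain ⟨c₁, hc₁⟩ := line_form hB h P H s₁ hs₁ (by rw [h1]; exact hH1) hH2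
    obtain ⟨c₂, hc₂⟩ := line_form hB h P H s₂ hs₂ (by rw [h2]; exact hH1) hH2
    exact ⟨H, c₁, c₂, c, hH1, hc0, hc₁, hc₂, hc⟩

end Pool.Agent.Y206.Q
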