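import Pool.Agent.Y206.Q.Main
import Pool.Agent.Y625.QG.Two
import Pool.Agent.Y31.QG.Hom
import Pool.Agent.Helper947.Geo.A5

set_option autoImplicit false
open MvPolynomial
open Pool.Agent.Helper947.Geo
open Pool.Agent.Y206.G
open Pool.Agent.Y689.QG
open scoped LinearAlgebra.Projectivization

namespace Pool.Agent.Y206.Q

theorem sub_le_iff (z : ℙ ℂ (Fin 4 → ℂ)) (L : Submodule ℂ (Fin 4 → ℂ)) :
    z.submodule ≤ L ↔ z.rep ∈ L := by
  rw [Projectivization.submodule_eq, Submodule.span_singleton_le_iff_mem]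

theorem mem_EL {e : Fin 2 → Fin 2 → Fin 4 → ℂ} (he : Basis4 e) {s t x : Fin 2 → ℂ}
    (hs : s ≠ 0) (ht : t ≠ 0) (hx : x ≠ 0) :
    E e s t ∈ LinearMap.range (EL e x) ↔ dt s x = 0 := by
  constructor
  · rintro ⟨y, hy⟩
    have h1 := E_eq he (show E e s t = E e x y from hy.symm)
    obtain ⟨j, hj⟩ := ne_cases ht
    have h2 : dt s x * t j = 0 := by
      simp only [dt]
      linear_combination x 1 * h1 0 j - x 0 * h1 1 j
    exact (mul_eq_zero.mp h2).resolve_right hj
  · intro h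
    obtain ⟨c, -, rfl⟩ := prop_dt h hs hx
    refine ⟨c • t, ?_⟩
    show E e x (c • t) = E e (c • x) t
    simp only [E, Pi.smul_apply, smul_eq_mul]
    module

/-- a plane through two incident ruling lines -/
theorem exists_plane {e : Fin 2 → Fin 2 → Fin 4 → ℂ} (he : Basis4 e) {x y : Fin 2 → ℂ}
    (hx : x ≠ 0) (hy : y ≠ 0) : ∃ ξ : Fin 4 → ℂ, ξ ≠ 0 ∧ ∀ s t, ξ ⬝ᵥ E e s t = dt s x * dt t y := by
  have hu : LinearIndependent ℂ ![e 0 0, e 0 1, e 1 0, e 1 1] := by
    have h := LinearIndependent.comp he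
      (![((0 : Fin 2), (0 : Fin 2)), (0, 1), (1, 0), (1, 1)] : Fin 4 → Fin 2 × Fin 2) (by decide)
    convert h using 1
    funext i
    fin_cases i <;> rfl
  obtain ⟨ξ, hξ⟩ := exists_coord ![e 0 0, e 0 1, e 1 0, e 1 1] hu
    ![x 1 * y 1, -(x 1 * y 0), -(x 0 * y 1), x 0 * y 0]
  have h00 : e 0 0 ⬝ᵥ ξ = x 1 * y 1 := hξ 0
  have h01 : e 0 1 ⬝ᵥ ξ = -(x 1 * y 0) := hξ 1
  have h10 : e 1 0 ⬝ᵥ ξ = -(x 0 * y 1) := hξ 2
  have h11 : e 1 1 ⬝ᵥ ξ = x 0 * y 0 := hξ 3
  refine ⟨ξ, ?_, ?_⟩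
  · rintro rfl
    rw [dotProduct_zero] at h00 h01 h10 h11
    obtain ⟨i, hi⟩ := ne_cases hx
    obtain ⟨j, hj⟩ := ne_cases hy
    have : x i * y j = 0 := by
      fin_cases i <;> fin_cases j
      · exact h11.symm
      · simpa using h10.symm
      · simpa using h01.symm
      · exact h00.symm
    exact mul_ne_zero hi hj this
  · intro s t
    rw [dotProduct_comm]
    simp only [E, add_dotProduct, smul_dotProduct, h00, h01, h10, h11, smul_eq_mul, dt]
    ring

/-- four points -/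
theorem four_case (Z : Finset (ℙ ℂ (Fin 4 → ℂ))) (hcard : Z.card = 4)
    (hsp : Submodule.span ℂ (Set.range (fun z : Z => (z : ℙ ℂ (Fin 4 → ℂ)).rep)) = ⊤) :
    Grid Z := by
  obtain ⟨L, M, h1, h2, h3, h4, h5, h6⟩ := grid_four_strong Z hcard (by
    intro c hc
    exact span_dual _ hsp c fun z => hc z.1 z.2)
  refine ⟨2, 2, L, M, h1, h2, h3, h4, h5, fun z => ?_⟩
  rw [h6]
  refine exists_congr fun i => exists_congr fun j => ?_
  constructor
  · intro h7
    have h8 : z.submodule ≤ L i ⊓ M j := (sub_le_iff z _).mpr (Submodule.mem_inf.mpr h7)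
    refine Submodule.eq_of_le_of_finrank_eq h8 ?_
    rw [h5, Projectivization.finrank_submodule]
  · intro h7
    have h8 : z.rep ∈ L i ⊓ M j := (sub_le_iff z _).mp h7.le
    exact Submodule.mem_inf.mp h8

section
variable {e : Fin 2 → Fin 2 → Fin 4 → ℂ}

/-- type `(2, b)`, with a line with three points -/
theorem two_core (hONE : S_ONE) (he : Basis4 e) (Z : Finset (ℙ ℂ (Fin 4 → ℂ)))
    (s t : Z → Fin 2 → ℂ) (h : Pts s t) (hrep : ∀ z : Z, z.1.rep = E e (s z) (t z))
    (hsp : Submodule.span ℂ (Set.range fun z : Z => E e (s z) (t z)) = ⊤) (b : ℕ) (hb : 3 ≤ b)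
    (hG : Gep (fun z : Z => E e (s z) (t z)) 2 b) (x : Fin 2 → ℂ) (hx : x ≠ 0)
    (h3 : 3 ≤ (cls s x).card) : Grid Z := by
  classical
  obtain ⟨hxc, hrest⟩ := type_two_line hONE he h hb hG x hx h3
  have hK := gep_card he h hG
  set R : Finset Z := Finset.univ.filter (fun k => dt (s k) x ≠ 0) with hR
  have hRm : ∀ k, k ∈ R ↔ dt (s k) x ≠ 0 := fun k => by simp [hR]
  have hRcard : R.card = b := by
    have h1 : (Finset.univ : Finset Z) = cls s x ∪ R := by
      ext k
      simp only [Finset.mem_univ, Finset.mem_union, mem_cls, hRm, true_iff]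
      tauto
    have h2 : Disjoint (cls s x) R := by
      rw [Finset.disjoint_left]
      intro k hk1 hk2
      rw [mem_cls] at hk1
      rw [hRm] at hk2
      exact hk2 hk1
    have h4 := congrArg Finset.card h1
    rw [Finset.card_univ, hK, Finset.card_union_of_disjoint h2, hxc] at h4
    omega
  obtain ⟨r, hr⟩ : R.Nonempty := by rw [← Finset.card_pos, hRcard]; omega
  have hrx := (hRm r).mp hr
  rcases hrest with hss | htt
  · have hiff : ∀ y, y ≠ 0 → ∀ z : Z, z.1.submodule ≤ LinearMap.range (EL e y) ↔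
        dt (s z) y = 0 := by
      intro y hy z
      rw [sub_le_iff, hrep z]
      exact mem_EL he (h.1 z) (h.2.1 z) hy
    have hcnt : ∀ y, y ≠ 0 → Nat.card {z // z ∈ Z ∧ z.submodule ≤ LinearMap.range (EL e y)} =
        (cls s y).card := by
      intro y hy
      rw [← card_cls]
      exact (Nat.card_congr ((Equiv.subtypeEquivRight fun z : Z => (hiff y hy z).symm).trans
        (Equiv.subtypeSubtypeEquivSubtypeInter (fun z => z ∈ Z)
          (fun z => z.submodule ≤ LinearMap.range (EL e y))))).symm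
    have hRr : cls s (s r) = R := by
      ext k
      rw [mem_cls, hRm]
      constructor
      · intro h1 h2
        exact hrx (dt_trans (h.1 k) (dt_comm0 h1) h2)
      · intro h1
        exact hss k r h1 hrx
    refine Pool.Agent.Y625.QG.two Z b ![LinearMap.range (EL e x), LinearMap.range (EL e (s r))]
      ?_ ?_ ?_ ?_ ?_
    · intro i
      fin_cases i
      · exact EL_rank he hx
      · exact EL_rank he (h.1 r)
    · exact EL_disj he (fun h0 => hrx (dt_comm0 h0))
    · intro z hz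
      by_cases h1 : dt (s ⟨z, hz⟩) x = 0
      · exact Or.inl ((hiff x hx ⟨z, hz⟩).mpr h1)
      · exact Or.inr ((hiff (s r) (h.1 r) ⟨z, hz⟩).mpr (hss ⟨z, hz⟩ r h1 hrx))
    · exact (hcnt x hx).trans hxc
    · exact (hcnt (s r) (h.1 r)).trans (by rw [hRr, hRcard])
  · exfalso
    obtain ⟨ξ, hξ0, hξ⟩ := exists_plane he hx (h.2.1 r)
    apply hξ0
    apply span_dual _ hsp
    intro k
    show ξ ⬝ᵥ E e (s k) (t k) = 0
    rw [hξ]
    by_cases h1 : dt (s k) x = 0
    · rw [h1, zero_mul]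
    · rw [htt k r h1 hrx, mul_zero]

end

/-- **the main theorem** -/
theorem final (hSEG : S_SEGRE) (hONE : S_ONE) (Z : Finset (ℙ ℂ (Fin 4 → ℂ)))
    (hspan : (⨆ z ∈ Z, z.submodule) = ⊤)
    (hq : ∃ q : MvPolynomial (Fin 4) ℂ, q.IsHomogeneous 2 ∧
      (∀ v : Fin 4 → ℂ,
        (∀ i : Fin 4, MvPolynomial.eval v (MvPolynomial.pderiv i q) = 0) → v = 0) ∧
      ∀ z ∈ Z, MvPolynomial.eval z.rep q = 0)
    (hgen : ∃ h : MvPolynomial (Fin 4) ℂ, h ≠ 0 ∧
      ∀ p : Fin 4 → ℂ, p ≠ 0 → MvPolynomial.eval p h ≠ 0 →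
        ∃ F G : MvPolynomial (Fin 4) ℂ, ∀ f : MvPolynomial (Fin 4) ℂ,
          f ∈ Ideal.span {F, G} ↔
            ∀ z ∈ Z, ∀ s t : ℂ, MvPolynomial.eval (s • p + t • z.rep) f = 0) : Grid Z := by
  classical
  obtain ⟨q, hq1, hq2, hq3⟩ := hq
  obtain ⟨e, he, hE⟩ := hSEG q hq1 hq2
  choose s t hrep using fun z : Z => hE z.1.rep (hq3 z.1 z.2)
  have hpair : ∀ k l : Z, k ≠ l → LinearIndependent ℂ ![k.1.rep, l.1.rep] := by
    intro k l hkl
    rw [LinearIndependent.pair_iff' k.1.rep_nonzero]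
    intro a ha
    apply hkl
    apply Subtype.ext
    rw [← k.1.mk_rep, ← l.1.mk_rep, Projectivization.mk_eq_mk_iff']
    have ha0 : a ≠ 0 := by
      rintro rfl
      rw [zero_smul] at ha
      exact l.1.rep_nonzero ha.symm
    refine ⟨a⁻¹, ?_⟩
    rw [← ha, smul_smul, inv_mul_cancel₀ ha0, one_smul]
  have hs0 : ∀ z, s z ≠ 0 := by
    intro z h0
    apply z.1.rep_nonzero
    rw [hrep z, h0]
    simp [E]
  have ht0 : ∀ z, t z ≠ 0 := by
    intro z h0
    apply z.1.rep_nonzero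
    rw [hrep z, h0]
    simp [E]
  have hPts : Pts s t := by
    refine ⟨hs0, ht0, fun k l hkl => ?_⟩
    apply (h_pair e he _ _ _ _ (hs0 k) (ht0 k) (hs0 l) (ht0 l)).mp
    rw [← hrep k, ← hrep l]
    exact hpair k l hkl
  have hzz : (fun z : Z => E e (s z) (t z)) = fun z : Z => z.1.rep := by
    funext z
    exact (hrep z).symm
  have hsp : Submodule.span ℂ (Set.range fun z : Z => z.1.rep) = ⊤ := by
    rw [eq_top_iff, ← hspan]
    refine iSup_le fun z => iSup_le fun hz => ?_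
    rw [sub_le_iff]
    exact Submodule.subset_span ⟨⟨z, hz⟩, rfl⟩
  obtain ⟨h, hh, hp⟩ := hgen
  obtain ⟨a, b, ha, hab, hK, hG⟩ := exists_type h_card (fun z : Z => z.1.rep) hsp hpair
    (fun z => z.1.rep_nonzero) (h * X (Fin.last 3)) (mul_ne_zero hh (X_ne_zero _)) (by
      intro P hP
      rw [map_mul, eval_X] at hP
      have hl := right_ne_zero_of_mul hP
      have hP0 : P ≠ 0 := by
        rintro rfl
        exact hl rfl
      obtain ⟨F, G, hFG⟩ := hp P hP0 (left_ne_zero_of_mul hP)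
      obtain ⟨F', G', hI⟩ := Pool.Agent.Y469.QG.cone Z (fun z => z.1.rep) P hl F G (by
        intro f
        rw [hFG f]
        exact ⟨fun h1 k => h1 k.1 k.2, fun h1 z hz => h1 ⟨z, hz⟩⟩)
      obtain ⟨a, b, F'', G'', h1, h2, h3⟩ := Pool.Agent.Y31.QG.hom 3 F' G' (van_homog hI)
      exact ⟨a, b, F'', G'', h1, h2, by rw [h3]; exact hI⟩)
  rw [← hzz] at hG hsp
  rcases Nat.lt_or_ge a 3 with ha3 | ha3
  · have ha2 : a = 2 := by omega
    subst ha2
    rcases Nat.lt_or_ge b 3 with hb3 | hb3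
    · have hb2 : b = 2 := by omega
      subst hb2
      refine four_case Z ?_ (by rw [← hzz]; exact hsp)
      rw [← Fintype.card_coe, hK]
    · have hpos : 0 < Fintype.card Z := by rw [hK]; omega
      obtain ⟨k₀⟩ := Fintype.card_pos_iff.mp hpos
      obtain ⟨s₀, t₀, hs₀, ht₀, -, h3 | h3⟩ := plane_lines he hPts hsp (by omega) hG k₀
      · exact two_core hONE he Z s t hPts hrep hsp b hb3 hG s₀ hs₀ h3
      · refine two_core hONE he.sw Z t s hPts.sw (fun z => by rw [E_sw]; exact hrep z) ?_ b hb3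
          (gep_sw hG) t₀ ht₀ h3
        simpa only [E_sw] using hsp
  · have hc := main hONE (a + b) Z e he s t hPts a b rfl ha3 hab hG
    exact grid e he Z s t hPts hrep hc.1

end Pool.Agent.Y206.Q
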