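import Pool.Agent.Helper947.Geo.Core3
import Pool.Agent.H503R3.QCI.Hilb

set_option autoImplicit false
open MvPolynomial
open Pool.Agent.Helper947.Geo
open scoped LinearAlgebra.Projectivization

/-!
# Project QG: geproci sets on smooth quadrics are grids (definitions and statements)

`projv P x` (Helper947.Geo.Core2) is the projection of `ℂ^4` from `P` to `ℂ^3`: it is linear in `x`,
kills `P`, and is `P_3 x_i - x_3 P_i` (`i < 3`).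
`IsVan w I`: `I` is the ideal of all polynomials vanishing on the lines spanned by the `w k`.
`lf η` is the linear form with coefficients `η`.
-/

namespace Pool.Agent.Y206.Q

/-- determinant of two vectors of the plane -/
def dt (x y : Fin 2 → ℂ) : ℂ := x 0 * y 1 - x 1 * y 0

/-- the Segre map `(s, t) ↦ ∑ s_i t_j e_ij` -/
def E (e : Fin 2 → Fin 2 → Fin 4 → ℂ) (s t : Fin 2 → ℂ) : Fin 4 → ℂ :=
  (s 0 * t 0) • e 0 0 + (s 0 * t 1) • e 0 1 + (s 1 * t 0) • e 1 0 + (s 1 * t 1) • e 1 1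

/-- the four vectors form a basis -/
def Basis4 (e : Fin 2 → Fin 2 → Fin 4 → ℂ) : Prop :=
  LinearIndependent ℂ (fun p : Fin 2 × Fin 2 => e p.1 p.2)

/-- the general projection is a complete intersection of type `(a, b)` -/
def Gep {K : Type} (z : K → Fin 4 → ℂ) (a b : ℕ) : Prop :=
  ∃ φ : MvPolynomial (Fin 4) ℂ, φ ≠ 0 ∧ ∀ P, eval P φ ≠ 0 →
    ∃ F G : MvPolynomial (Fin 3) ℂ, F.IsHomogeneous a ∧ G.IsHomogeneous b ∧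
      IsVan (fun k => projv P (z k)) (Ideal.span {F, G})

/-- pairwise distinct points of the Segre quadric -/
def Pts {K : Type} (s t : K → Fin 2 → ℂ) : Prop :=
  (∀ k, s k ≠ 0) ∧ (∀ k, t k ≠ 0) ∧ ∀ k l, k ≠ l → dt (s k) (s l) ≠ 0 ∨ dt (t k) (t l) ≠ 0

/-- the grid property -/
def Closed {K : Type} (s t : K → Fin 2 → ℂ) : Prop :=
  ∀ j k, ∃ i, dt (s i) (s j) = 0 ∧ dt (t i) (t k) = 0

/-! ## algebra in general -/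

/-- HOM: a homogeneous ideal with two generators has two homogeneous generators -/
def S_HOM : Prop := ∀ (n : ℕ) (F G : MvPolynomial (Fin n) ℂ),
  H503R3.QCI.Homog (Ideal.span {F, G}) →
  ∃ (a b : ℕ) (F' G' : MvPolynomial (Fin n) ℂ), F'.IsHomogeneous a ∧ G'.IsHomogeneous b ∧
    Ideal.span {F', G'} = Ideal.span {F, G}

/-- CONE: from the cone with vertex `P` to the projection -/
def S_CONE : Prop := ∀ (K : Type) (z : K → Fin 4 → ℂ) (P : Fin 4 → ℂ),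
  P (Fin.last 3) ≠ 0 → ∀ F G : MvPolynomial (Fin 4) ℂ,
  (∀ f : MvPolynomial (Fin 4) ℂ, f ∈ Ideal.span {F, G} ↔
    ∀ k, ∀ s t : ℂ, eval (s • P + t • z k) f = 0) →
  ∃ F' G' : MvPolynomial (Fin 3) ℂ, IsVan (fun k => projv P (z k)) (Ideal.span {F', G'})

/-! ## plane complete intersections of points -/

/-- CARD: Bezout -/
def S_CARD : Prop := ∀ (K : Type) [Fintype K] (w : K → Fin 3 → ℂ) (a b : ℕ)
  (F G : MvPolynomial (Fin 3) ℂ), (∀ k l, k ≠ l → LinearIndependent ℂ ![w k, w l]) →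
  (∀ k, w k ≠ 0) → F.IsHomogeneous a → G.IsHomogeneous b → IsVan w (Ideal.span {F, G}) →
  Fintype.card K = a * b

/-- LINE: if `lf η` divides `F` then the line contains `b = deg G` points -/
def S_LINE : Prop := ∀ (K : Type) [Fintype K] (w : K → Fin 3 → ℂ) (a b : ℕ)
  (F G : MvPolynomial (Fin 3) ℂ), (∀ k l, k ≠ l → LinearIndependent ℂ ![w k, w l]) →
  (∀ k, w k ≠ 0) → F.IsHomogeneous a → G.IsHomogeneous b → IsVan w (Ideal.span {F, G}) →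
  ∀ η : Fin 3 → ℂ, η ≠ 0 → lf η ∣ F → Nat.card {k // η ⬝ᵥ w k = 0} = b

/-- PEEL: the residual of a line in `F` -/
def S_PEEL : Prop := ∀ (K : Type) [Fintype K] (w : K → Fin 3 → ℂ) (a b : ℕ)
  (F' G : MvPolynomial (Fin 3) ℂ), (∀ k l, k ≠ l → LinearIndependent ℂ ![w k, w l]) →
  (∀ k, w k ≠ 0) → F'.IsHomogeneous a → G.IsHomogeneous b →
  ∀ η : Fin 3 → ℂ, η ≠ 0 → IsVan w (Ideal.span {lf η * F', G}) →
  IsVan (fun k : {k // η ⬝ᵥ w k ≠ 0} => w k.1) (Ideal.span {F', G})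

/-- FULL: a line with at least `a` points contains exactly `a` or `b` points and can be removed -/
def S_FULL : Prop := ∀ (K : Type) [Fintype K] (w : K → Fin 3 → ℂ) (a b : ℕ)
  (F G : MvPolynomial (Fin 3) ℂ), (∀ k l, k ≠ l → LinearIndependent ℂ ![w k, w l]) →
  (∀ k, w k ≠ 0) → F.IsHomogeneous a → G.IsHomogeneous b → IsVan w (Ideal.span {F, G}) →
  1 ≤ a → a ≤ b → ∀ η : Fin 3 → ℂ, η ≠ 0 → a ≤ Nat.card {k // η ⬝ᵥ w k = 0} →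
  (Nat.card {k // η ⬝ᵥ w k = 0} = b ∧ ∃ F' : MvPolynomial (Fin 3) ℂ, F'.IsHomogeneous (a - 1) ∧
    IsVan (fun k : {k // η ⬝ᵥ w k ≠ 0} => w k.1) (Ideal.span {F', G})) ∨
  (Nat.card {k // η ⬝ᵥ w k = 0} = a ∧ ∃ G' : MvPolynomial (Fin 3) ℂ, G'.IsHomogeneous (b - 1) ∧
    IsVan (fun k : {k // η ⬝ᵥ w k ≠ 0} => w k.1) (Ideal.span {F, G'}))

/-- NV: a form of the ideal of degree the number of points of the line, not vanishing on it -/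
def S_NV : Prop := ∀ (K : Type) [Fintype K] (w : K → Fin 3 → ℂ) (a b : ℕ)
  (F G : MvPolynomial (Fin 3) ℂ), (∀ k l, k ≠ l → LinearIndependent ℂ ![w k, w l]) →
  (∀ k, w k ≠ 0) → F.IsHomogeneous a → G.IsHomogeneous b → IsVan w (Ideal.span {F, G}) →
  1 ≤ a → a ≤ b → ∀ η : Fin 3 → ℂ, η ≠ 0 →
  (Nat.card {k // η ⬝ᵥ w k = 0} = a ∨ Nat.card {k // η ⬝ᵥ w k = 0} = b) →
  ∃ H ∈ Ideal.span {F, G}, H.IsHomogeneous (Nat.card {k // η ⬝ᵥ w k = 0}) ∧ ¬ lf η ∣ H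

/-- BIN: a binary form of degree `n` with `n` zeros is determined up to a factor -/
def S_BIN : Prop := ∀ (g : MvPolynomial (Fin 2) ℂ) (ι : Type) (S : Finset ι)
  (t : ι → Fin 2 → ℂ), g.IsHomogeneous S.card →
  (∀ i ∈ S, ∀ j ∈ S, i ≠ j → dt (t i) (t j) ≠ 0) → (∀ i ∈ S, t i ≠ 0) →
  (∀ i ∈ S, eval (t i) g = 0) → ∃ c : ℂ, g = C c * ∏ i ∈ S, lf ![-(t i 1), t i 0]

/-! ## the Segre quadric -/

/-- SEGRE: a smooth quadric of `ℙ^3` is a Segre quadric -/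
def S_SEGRE : Prop := ∀ q : MvPolynomial (Fin 4) ℂ, q.IsHomogeneous 2 →
  (∀ v : Fin 4 → ℂ, (∀ i : Fin 4, eval v (pderiv i q) = 0) → v = 0) →
  ∃ e : Fin 2 → Fin 2 → Fin 4 → ℂ, Basis4 e ∧ ∀ v, eval v q = 0 → ∃ s t, v = E e s t

/-- PAIR -/
def S_PAIR : Prop := ∀ e : Fin 2 → Fin 2 → Fin 4 → ℂ, Basis4 e → ∀ s t s' t' : Fin 2 → ℂ,
  s ≠ 0 → t ≠ 0 → s' ≠ 0 → t' ≠ 0 →
  (LinearIndependent ℂ ![E e s t, E e s' t'] ↔ dt s s' ≠ 0 ∨ dt t t' ≠ 0)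

/-- TRIP: three collinear points of the quadric are on a ruling line -/
def S_TRIP : Prop := ∀ e : Fin 2 → Fin 2 → Fin 4 → ℂ, Basis4 e → ∀ s t : Fin 3 → Fin 2 → ℂ,
  Pts s t → ¬ LinearIndependent ℂ ![E e (s 0) (t 0), E e (s 1) (t 1), E e (s 2) (t 2)] →
  (∀ i j, dt (s i) (s j) = 0) ∨ ∀ i j, dt (t i) (t j) = 0

/-- PLANE: a plane containing a ruling line meets the quadric in two ruling lines -/
def S_PLANE : Prop := ∀ e : Fin 2 → Fin 2 → Fin 4 → ℂ, Basis4 e → ∀ ξ : Fin 4 → ℂ, ξ ≠ 0 →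
  ∀ s₀ x y : Fin 2 → ℂ, s₀ ≠ 0 → dt x y ≠ 0 → ξ ⬝ᵥ E e s₀ x = 0 → ξ ⬝ᵥ E e s₀ y = 0 →
  ∃ t₀ : Fin 2 → ℂ, t₀ ≠ 0 ∧ ∀ s t, ξ ⬝ᵥ E e s t = 0 ↔ dt s s₀ = 0 ∨ dt t t₀ = 0

/-- CONIC: a plane either meets the quadric in two ruling lines or contains at most one point
on each ruling line -/
def S_CONIC : Prop := ∀ e : Fin 2 → Fin 2 → Fin 4 → ℂ, Basis4 e → ∀ ξ : Fin 4 → ℂ, ξ ≠ 0 →
  (∃ s₀ t₀ : Fin 2 → ℂ, s₀ ≠ 0 ∧ t₀ ≠ 0 ∧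
    ∀ s t, ξ ⬝ᵥ E e s t = 0 ↔ dt s s₀ = 0 ∨ dt t t₀ = 0) ∨
  ∀ s t s' t' : Fin 2 → ℂ, s ≠ 0 → t ≠ 0 → s' ≠ 0 → t' ≠ 0 → ξ ⬝ᵥ E e s t = 0 →
    ξ ⬝ᵥ E e s' t' = 0 → (dt s s' = 0 ↔ dt t t' = 0)

/-- LINK: the projection of a ruling line -/
def S_LINK : Prop := ∀ e : Fin 2 → Fin 2 → Fin 4 → ℂ, Basis4 e → ∀ (K : Type) [Fintype K]
  (s t : K → Fin 2 → ℂ), (∀ k, s k ≠ 0) → (∀ k, t k ≠ 0) → ∀ s₀ : Fin 2 → ℂ, s₀ ≠ 0 →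
  ∃ φ : MvPolynomial (Fin 4) ℂ, φ ≠ 0 ∧ ∀ P, eval P φ ≠ 0 → P (Fin.last 3) ≠ 0 ∧
    ∃ η : Fin 3 → ℂ, η ≠ 0 ∧ (∀ x, η ⬝ᵥ projv P (E e s₀ x) = 0) ∧
      (∀ y, η ⬝ᵥ y = 0 → ∃ x, projv P (E e s₀ x) = y) ∧
      ∀ k, η ⬝ᵥ projv P (E e (s k) (t k)) = 0 ↔ dt (s k) s₀ = 0

/-- DTT: three ruling lines of one family -/
def S_DTT : Prop := ∀ e : Fin 2 → Fin 2 → Fin 4 → ℂ, Basis4 e → ∀ (n : ℕ)
  (s : Fin 3 → Fin 2 → ℂ), (∀ i j, i ≠ j → dt (s i) (s j) ≠ 0) →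
  ∀ D : Fin 3 → MvPolynomial (Fin 2) ℂ, (∀ i, (D i).IsHomogeneous n) → (∀ i, D i ≠ 0) →
  ∀ φ : MvPolynomial (Fin 4) ℂ, φ ≠ 0 →
  (∀ P, eval P φ ≠ 0 → ∃ (H : MvPolynomial (Fin 3) ℂ) (c : Fin 3 → ℂ), H.IsHomogeneous n ∧
    c 0 ≠ 0 ∧ ∀ i x, eval (projv P (E e (s i) x)) H = c i * eval x (D i)) →
  ∀ x, eval x (D 0) = 0 → eval x (D 1) = 0

/-- DTM: two ruling lines of one family and one of the other -/
def S_DTM : Prop := ∀ e : Fin 2 → Fin 2 → Fin 4 → ℂ, Basis4 e → ∀ (n : ℕ), 1 ≤ n →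
  ∀ s₁ s₂ y : Fin 2 → ℂ, dt s₁ s₂ ≠ 0 → ∀ D₁ D₂ D₃ : MvPolynomial (Fin 2) ℂ,
  D₁.IsHomogeneous n → D₂.IsHomogeneous n → D₃.IsHomogeneous n →
  eval y D₁ ≠ 0 → eval y D₂ ≠ 0 → eval s₁ D₃ ≠ 0 → eval s₂ D₃ ≠ 0 →
  ∀ φ : MvPolynomial (Fin 4) ℂ, φ ≠ 0 →
  (∀ P, eval P φ ≠ 0 → ∃ (H : MvPolynomial (Fin 3) ℂ) (c₁ c₂ c₃ : ℂ), H.IsHomogeneous n ∧
    c₃ ≠ 0 ∧ (∀ x, eval (projv P (E e s₁ x)) H = c₁ * eval x D₁) ∧
    (∀ x, eval (projv P (E e s₂ x)) H = c₂ * eval x D₂) ∧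
    ∀ x, eval (projv P (E e x y)) H = c₃ * eval x D₃) → False

/-- NDG: types `(a, b)` with `a, b ≥ 3` on a quadric are nondegenerate -/
def S_NDG : Prop := ∀ e : Fin 2 → Fin 2 → Fin 4 → ℂ, Basis4 e → ∀ (K : Type) [Fintype K]
  (s t : K → Fin 2 → ℂ) (a b : ℕ), 3 ≤ a → 3 ≤ b → Gep (fun k => E e (s k) (t k)) a b →
  Submodule.span ℂ (Set.range fun k => E e (s k) (t k)) = ⊤

/-! ## conclusions -/

/-- the conclusion of the frozen statement -/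
def Grid (Z : Finset (ℙ ℂ (Fin 4 → ℂ))) : Prop :=
  ∃ a b : ℕ, ∃ L : Fin a → Submodule ℂ (Fin 4 → ℂ), ∃ M : Fin b → Submodule ℂ (Fin 4 → ℂ),
    (∀ i, Module.finrank ℂ (L i) = 2) ∧ (∀ j, Module.finrank ℂ (M j) = 2) ∧
    (∀ i i', i ≠ i' → L i ⊓ L i' = ⊥) ∧ (∀ j j', j ≠ j' → M j ⊓ M j' = ⊥) ∧
    (∀ i j, Module.finrank ℂ (↥(L i ⊓ M j)) = 1) ∧
    ∀ z : ℙ ℂ (Fin 4 → ℂ), z ∈ Z ↔ ∃ i j, z.submodule = L i ⊓ M j

/-- GRID: a closed set of the quadric is a grid -/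
def S_GRID : Prop := ∀ e : Fin 2 → Fin 2 → Fin 4 → ℂ, Basis4 e →
  ∀ (Z : Finset (ℙ ℂ (Fin 4 → ℂ))) (s t : Z → Fin 2 → ℂ), Pts s t →
  (∀ z : Z, z.1.rep = E e (s z) (t z)) → Closed s t → Grid Z

/-- TWO: the same number of points on each of two skew lines -/
def S_TWO : Prop := ∀ (Z : Finset (ℙ ℂ (Fin 4 → ℂ))) (b : ℕ) (L : Fin 2 → Submodule ℂ (Fin 4 → ℂ)),
  (∀ i, Module.finrank ℂ (L i) = 2) → L 0 ⊓ L 1 = ⊥ →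
  (∀ z ∈ Z, z.submodule ≤ L 0 ∨ z.submodule ≤ L 1) →
  Nat.card {z // z ∈ Z ∧ z.submodule ≤ L 0} = b → Nat.card {z // z ∈ Z ∧ z.submodule ≤ L 1} = b →
  Grid Z

end Pool.Agent.Y206.Q
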