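import Pool.Agent.Y206.Q.Special2
import Pool.Agent.Y206.Q.Stm
import Pool.Agent.Y206.G.Asm
import Pool.Agent.Y206.G.Ci
import Pool.Agent.Helper947.Geo.C3

set_option autoImplicit false
open MvPolynomial
open Pool.Agent.Helper947.Geo
open Pool.Agent.Y206.G

namespace Pool.Agent.Y206.Q

/-- a complete intersection of points in the plane is Gorenstein -/
theorem gor_pair {K : Type} [Fintype K] [Nonempty K] {w : K → Fin 3 → ℂ} {a b : ℕ}
    {F G : MvPolynomial (Fin 3) ℂ} (hF : F.IsHomogeneous a) (hG : G.IsHomogeneous b)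
    (hI : IsVan w (Ideal.span {F, G})) (hw : ∀ k, w k ≠ 0) :
    1 ≤ a ∧ 1 ≤ b ∧ F ≠ 0 ∧ G ≠ 0 ∧ IsRelPrime F G ∧ ∃ h : MvPolynomial (Fin 3) ℂ,
      h.IsHomogeneous 1 ∧ (∀ k, eval (w k) h ≠ 0) ∧
      Soc1 (Ideal.span {F, G} ⊔ Ideal.span {h}) ((a - 1) + (b - 1)) := by
  classical
  have hcop := coprime_of_van w F G hI
  have hnotunit : ∀ H : MvPolynomial (Fin 3) ℂ, H ∈ Ideal.span ({F, G} : Set (MvPolynomial (Fin 3) ℂ)) →
      ¬ IsUnit H := by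
    intro H hH hu
    have htop := Ideal.eq_top_of_isUnit_mem _ hH hu
    have h1 : (1 : MvPolynomial (Fin 3) ℂ) ∈ Ideal.span ({F, G} : Set (MvPolynomial (Fin 3) ℂ)) := by
      rw [htop]; trivial
    have := (hI 1).mp h1 (Classical.arbitrary K) 1
    simp at this
  have hF0 : F ≠ 0 := by
    intro h0
    apply hnotunit G (Ideal.subset_span (by simp))
    exact hcop (by rw [h0]; exact dvd_zero _) (dvd_refl _)
  have hG0 : G ≠ 0 := by
    intro h0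
    apply hnotunit F (Ideal.subset_span (by simp))
    exact hcop (dvd_refl _) (by rw [h0]; exact dvd_zero _)
  have hreg := isReg_pair F G hF0 hcop
  have hrange : Set.range ![F, G] = {F, G} := by
    simp [Matrix.range_cons, Matrix.range_empty, Set.pair_comm G F]
  obtain ⟨h, hh, hne⟩ := exists_linear w hw
  have h1 := soc1_of_ci (N := 2) ![F, G] ![a, b] (by
    intro i
    fin_cases i
    · exact hF
    · exact hG) hreg (by rw [hrange]; exact hI) hh hne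
  obtain ⟨h2, h3⟩ := h1
  rw [hrange] at h3
  refine ⟨by simpa using h2 0, by simpa using h2 1, hF0, hG0, hcop, h, hh, hne, ?_⟩
  simpa [Fin.sum_univ_two] using h3

/-- **special planes of a geproci set** -/
theorem gep_special {K : Type} [Fintype K] [DecidableEq K]
    (z : K → Fin 4 → ℂ) (hsp : Submodule.span ℂ (Set.range z) = ⊤)
    (h2 : ∀ i j, i ≠ j → LinearIndependent ℂ ![z i, z j])
    (hz : ∀ k, z k ≠ 0) (a b : ℕ) (hG : Gep z a b) (hab : 5 ≤ a + b) (k₀ : K) :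
    ∃ (ξ : Fin 4 → ℂ) (W : Finset K), ξ ≠ 0 ∧ k₀ ∈ W ∧ (∀ k ∈ W, ξ ⬝ᵥ z k = 0) ∧
      a + b ≤ W.card + 1 ∧ ∃ i ∈ W, ∃ j ∈ W, ∃ k ∈ W, i ≠ j ∧ i ≠ k ∧ j ≠ k ∧
        ¬ LinearIndependent ℂ ![z i, z j, z k] := by
  classical
  have : Nonempty K := ⟨k₀⟩
  obtain ⟨φ₀, hφ₀, hP⟩ := hG
  obtain ⟨φ₂, hφ₂, hind⟩ := projv_indep z h2 hz (le_refl 3) hsp
  obtain ⟨m, φ, hm1, hφ, hA, hB, hC, hc1, hc2, hσ⟩ := gen_data (N := 2) le_rfl z hsp h2 hz
    (φ₀ * φ₂) (mul_ne_zero hφ₀ hφ₂) (by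
      intro P _ hP'
      rw [map_mul] at hP'
      obtain ⟨-, -, hnz, -⟩ := hind P (right_ne_zero_of_mul hP')
      obtain ⟨F, G, hF, hG', hI⟩ := hP P (left_ne_zero_of_mul hP')
      obtain ⟨-, -, -, -, -, h, hh, hne, hsoc⟩ := gor_pair hF hG' hI hnz
      exact ⟨_, _, h, hI, hh, hne, hsoc⟩)
  obtain ⟨P, hPφ⟩ := g4_exists_ne φ hφ
  obtain ⟨-, hP', huniq⟩ := hσ P hPφ
  rw [map_mul] at hP'
  obtain ⟨-, -, hnz, -⟩ := hind P (right_ne_zero_of_mul hP')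
  obtain ⟨F, G, hF, hG', hI⟩ := hP P (left_ne_zero_of_mul hP')
  obtain ⟨ha, hb, -, -, -, h, hh, hne, hsoc⟩ := gor_pair hF hG' hI hnz
  have hm := huniq _ _ h hI hh hne hsoc
  obtain ⟨ξ, W, h1, h3, h4, h5, h6⟩ := special z hsp h2 hz m hm1 φ hφ hA hB hC
    (hc2 (by omega)) k₀
  exact ⟨ξ, W, h1, h3, h4, by omega, h6⟩

/-- the type of a nondegenerate geproci set is constant -/
theorem exists_type (hcardCI : S_CARD) {K : Type} [Fintype K] [DecidableEq K]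
    (z : K → Fin 4 → ℂ) (hsp : Submodule.span ℂ (Set.range z) = ⊤)
    (h2 : ∀ i j, i ≠ j → LinearIndependent ℂ ![z i, z j])
    (hz : ∀ k, z k ≠ 0) (φ₀ : MvPolynomial (Fin 4) ℂ) (hφ₀ : φ₀ ≠ 0)
    (hP : ∀ P, eval P φ₀ ≠ 0 → ∃ (a b : ℕ) (F G : MvPolynomial (Fin 3) ℂ),
      F.IsHomogeneous a ∧ G.IsHomogeneous b ∧ IsVan (fun k => projv P (z k)) (Ideal.span {F, G})) :
    ∃ a b : ℕ, 2 ≤ a ∧ a ≤ b ∧ Fintype.card K = a * b ∧ Gep z a b := by
  classical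
  have hcard := card_pos_of_span z hsp
  have : Nonempty K := Fintype.card_pos_iff.mp (by omega)
  obtain ⟨φ₂, hφ₂, hind⟩ := projv_indep z h2 hz (le_refl 3) hsp
  obtain ⟨m, φ, hm1, hφ, hA, hB, hC, hc1, hc2, hσ⟩ := gen_data (N := 2) le_rfl z hsp h2 hz
    (φ₀ * φ₂) (mul_ne_zero hφ₀ hφ₂) (by
      intro P _ hP'
      rw [map_mul] at hP'
      obtain ⟨-, -, hnz, -⟩ := hind P (right_ne_zero_of_mul hP')
      obtain ⟨a, b, F, G, hF, hG', hI⟩ := hP P (left_ne_zero_of_mul hP')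
      obtain ⟨-, -, -, -, -, h, hh, hne, hsoc⟩ := gor_pair hF hG' hI hnz
      exact ⟨_, _, h, hI, hh, hne, hsoc⟩)
  have key : ∀ P, eval P φ ≠ 0 → ∃ a b : ℕ, 2 ≤ a ∧ a ≤ b ∧ a + b = m + 3 ∧
      Fintype.card K = a * b ∧ ∃ F G : MvPolynomial (Fin 3) ℂ,
      F.IsHomogeneous a ∧ G.IsHomogeneous b ∧
      IsVan (fun k => projv P (z k)) (Ideal.span {F, G}) := by
    intro P hPφ
    obtain ⟨-, hP', huniq⟩ := hσ P hPφ
    rw [map_mul] at hP'
    obtain ⟨-, hpair, hnz, hwsp⟩ := hind P (right_ne_zero_of_mul hP')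
    obtain ⟨a, b, F, G, hF, hG', hI⟩ := hP P (left_ne_zero_of_mul hP')
    obtain ⟨ha, hb, hF0, hG0, -, h, hh, hne, hsoc⟩ := gor_pair hF hG' hI hnz
    have hm := huniq _ _ h hI hh hne hsoc
    have hK := hcardCI K _ a b F G hpair hnz hF hG' hI
    have hrange : Set.range ![F, G] = {F, G} := by
      simp [Matrix.range_cons, Matrix.range_empty, Set.pair_comm G F]
    have hcop := coprime_of_van _ F G hI
    obtain ⟨hci1, -⟩ := ci_rel (N := 2) (fun k => projv P (z k)) hpair hnz hwsp ![F, G] ![a, b] (by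
      intro i
      fin_cases i
      · exact hF
      · exact hG') (isReg_pair F G hF0 hcop) (by rw [hrange]; exact hI)
    have ha2 : 2 ≤ a := by simpa using hci1 0
    have hb2 : 2 ≤ b := by simpa using hci1 1
    rcases le_total a b with hab | hab
    · exact ⟨a, b, ha2, hab, by omega, hK, F, G, hF, hG', hI⟩
    · exact ⟨b, a, hb2, hab, by omega, by rw [hK, mul_comm], G, F, hG', hF, by
        rw [Set.pair_comm]; exact hI⟩
  obtain ⟨P₀, hP₀⟩ := g4_exists_ne φ hφ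
  obtain ⟨a, b, ha, hab, hsum, hK, -⟩ := key P₀ hP₀
  refine ⟨a, b, ha, hab, hK, φ, hφ, ?_⟩
  intro P hPφ
  obtain ⟨a', b', ha', hab', hsum', hK', F, G, hF, hG', hI⟩ := key P hPφ
  have h5 : a' = a := by
    have h6 : a * b = a' * b' := hK.symm.trans hK'
    have h7 : a + b = a' + b' := hsum.trans hsum'.symm
    by_contra hne
    rcases lt_or_gt_of_ne hne with hlt | hlt
    · obtain ⟨c, rfl⟩ : ∃ c, a = a' + c + 1 := ⟨a - a' - 1, by omega⟩
      obtain ⟨e, rfl⟩ : ∃ e, b' = b + c + 1 := ⟨0, by omega⟩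
      nlinarith
    · obtain ⟨c, rfl⟩ : ∃ c, a' = a + c + 1 := ⟨a' - a - 1, by omega⟩
      obtain ⟨e, rfl⟩ : ∃ e, b = b' + c + 1 := ⟨0, by omega⟩
      nlinarith
  have h6 : b' = b := by omega
  subst h5 h6
  exact ⟨F, G, hF, hG', hI⟩

end Pool.Agent.Y206.Q
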