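import Pool.Agent.Y206.Q.Stm

set_option autoImplicit false
open MvPolynomial
open Pool.Agent.Helper947.Geo

namespace Pool.Agent.Y206.Q

/-- ONE: type `(1, b)` with `b ≥ 3` is contained in a ruling line -/
def S_ONE : Prop := ∀ e : Fin 2 → Fin 2 → Fin 4 → ℂ, Basis4 e → ∀ (K : Type) [Fintype K]
  (s t : K → Fin 2 → ℂ), Pts s t → ∀ b : ℕ, 3 ≤ b → Gep (fun k => E e (s k) (t k)) 1 b →
  (∀ j k, dt (s j) (s k) = 0) ∨ ∀ j k, dt (t j) (t k) = 0

end Pool.Agent.Y206.Q
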