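import Pool.Agent.Y206.Q.Link2
import Pool.Agent.Y206.Q.Stm2
import Pool.Agent.Z864.QG.Line
import Pool.Agent.Y161.QG.Link
import Pool.Agent.Y469.QG.Nv
import Pool.Agent.Y469.QG.Quad
import Pool.Agent.Y248.QG.Full
import Pool.Agent.Y151.QG.Dtm
import Pool.Agent.Y366.QG.Dtt
import Pool.Agent.Y328.QG.Card

set_option autoImplicit false
open MvPolynomial
open Pool.Agent.Helper947.Geo
open Pool.Agent.Y206.G
open Pool.Agent.Y689.QG

namespace Pool.Agent.Y206.Q

theorem h_bin : S_BIN := Pool.Agent.Y469.QG.bin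
theorem h_line : S_LINE := Pool.Agent.Z864.QG.line h_bin
theorem h_full : S_FULL := Pool.Agent.Y248.QG.full h_line Pool.Agent.Y469.QG.peel h_bin
theorem h_nv : S_NV := Pool.Agent.Y469.QG.Nv.nv h_line h_bin
theorem h_link : S_LINK := Pool.Agent.Y161.QG.link
theorem h_pair : S_PAIR := Pool.Agent.Y469.QG.pair
theorem h_trip : S_TRIP := Pool.Agent.Y469.QG.trip
theorem h_plane : S_PLANE := Pool.Agent.Y469.QG.plane
theorem h_conic : S_CONIC := Pool.Agent.Y469.QG.conic
theorem h_dtt : S_DTT := Pool.Agent.Y366.QG.dtt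
theorem h_dtm : S_DTM := Pool.Agent.Y151.QG.dtm
theorem h_card : S_CARD := Pool.Agent.Y328.QG.card

/-- the conclusion of the induction -/
def Con {K : Type} [Fintype K] (s t : K → Fin 2 → ℂ) (a b : ℕ) : Prop :=
  Closed s t ∧ ((∀ k, (cls s (s k)).card = b ∧ (cls t (t k)).card = a) ∨
    ∀ k, (cls s (s k)).card = a ∧ (cls t (t k)).card = b)

theorem Con.sw {K : Type} [Fintype K] {s t : K → Fin 2 → ℂ} {a b : ℕ} (h : Con s t a b) :
    Con t s a b :=
  ⟨h.1.sw, h.2.symm.imp (fun h k => ⟨(h k).2, (h k).1⟩) (fun h k => ⟨(h k).2, (h k).1⟩)⟩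

section
variable {e : Fin 2 → Fin 2 → Fin 4 → ℂ} {K : Type} [Fintype K] {s t : K → Fin 2 → ℂ} {a b n : ℕ}

theorem gep_card (he : Basis4 e) (h : Pts s t) (hG : Gep (fun k => E e (s k) (t k)) a b) :
    Fintype.card K = a * b := by
  obtain ⟨φ₁, hφ₁, h1⟩ := hG
  obtain ⟨φ₃, hφ₃, h3⟩ := projv_pair (fun k => E e (s k) (t k)) (pts_pair h_pair he h)
    (pts_ne he h)
  obtain ⟨P, hP⟩ := g4_exists_ne _ (mul_ne_zero hφ₁ hφ₃)
  rw [map_mul] at hP
  obtain ⟨F, G, hF, hG, hI⟩ := h1 P (left_ne_zero_of_mul hP)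
  obtain ⟨-, hpair, hnz⟩ := h3 P (right_ne_zero_of_mul hP)
  exact h_card K _ a b F G hpair hnz hF hG hI

theorem dt_self (x : Fin 2 → ℂ) : dt x x = 0 := by
  simp only [dt]; ring

theorem cls_eq (x y : Fin 2 → ℂ) (hx : x ≠ 0) (hy : y ≠ 0) (h : dt x y = 0) :
    cls s x = cls s y := by
  ext k
  rw [mem_cls, mem_cls]
  exact ⟨fun h1 => dt_trans hx h1 h, fun h1 => dt_trans hy h1 (dt_comm0 h)⟩

theorem cls_sub (p : K → Prop) (x : Fin 2 → ℂ) [DecidablePred p] :
    (cls (fun k : {k // p k} => t k.1) x).card = ((cls t x).filter p).card := by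
  classical
  refine Finset.card_bij' (fun k _ => k.1) (fun k hk => ⟨k, (Finset.mem_filter.mp hk).2⟩)
    ?_ ?_ ?_ ?_
  · intro k hk
    have h1 := mem_cls.mp hk
    exact Finset.mem_filter.mpr ⟨mem_cls.mpr h1, k.2⟩
  · intro k hk
    have h1 := mem_cls.mp (Finset.mem_filter.mp hk).1
    rw [mem_cls]
    exact h1
  · intro k _; rfl
  · intro k _; rfl

/-- a special plane through a point, on the quadric -/
theorem plane_lines (he : Basis4 e) (h : Pts s t)
    (hsp : Submodule.span ℂ (Set.range fun k => E e (s k) (t k)) = ⊤)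
    (hab : 5 ≤ a + b) (hG : Gep (fun k => E e (s k) (t k)) a b) (k₀ : K) [DecidableEq K] :
    ∃ s₀ t₀ : Fin 2 → ℂ, s₀ ≠ 0 ∧ t₀ ≠ 0 ∧ a + b ≤ (cls s s₀ ∪ cls t t₀).card + 1 ∧
      (3 ≤ (cls s s₀).card ∨ 3 ≤ (cls t t₀).card) := by
  classical
  obtain ⟨ξ, W, hξ, -, hW, hcard, i, hi, j, hj, k, hk, hij, hik, hjk, hdep⟩ :=
    gep_special (fun k => E e (s k) (t k)) hsp (pts_pair h_pair he h) (pts_ne he h) a b hG hab k₀
  have hPts : Pts (fun n : Fin 3 => s (![i, j, k] n)) (fun n : Fin 3 => t (![i, j, k] n)) := by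
    refine ⟨fun n => h.1 _, fun n => h.2.1 _, ?_⟩
    intro n n' hnn
    apply h.2.2
    fin_cases n <;> fin_cases n' <;> simp at hnn ⊢
    · exact hij
    · exact hik
    · exact Ne.symm hij
    · exact hjk
    · exact Ne.symm hik
    · exact Ne.symm hjk
  have h3 : ∀ (S : Finset K), i ∈ S → j ∈ S → k ∈ S → 3 ≤ S.card := by
    intro S h1 h2 h3
    have : ({i, j, k} : Finset K) ⊆ S := by
      intro x hx
      simp only [Finset.mem_insert, Finset.mem_singleton] at hx
      rcases hx with rfl | rfl | rfl <;> assumption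
    have h4 := Finset.card_le_card this
    rw [Finset.card_insert_of_notMem (by simp [hij, hik]), Finset.card_pair hjk] at h4
    exact h4
  rcases h_trip e he _ _ hPts hdep with hs | ht
  · have hsi : ∀ x, x = i ∨ x = j ∨ x = k → dt (s x) (s i) = 0 := by
      rintro x (rfl | rfl | rfl)
      · exact hs 0 0
      · exact hs 1 0
      · exact hs 2 0
    have hz : ∀ x, x ∈ W → dt (s x) (s i) = 0 → ξ ⬝ᵥ E e (s i) (t x) = 0 := by
      intro x hx hd
      obtain ⟨c, hc, hc'⟩ := prop_dt (dt_comm0 hd) (h.1 i) (h.1 x)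
      have h2 : E e (s i) (t x) = c • E e (s x) (t x) := by
        conv_lhs => rw [hc']
        have := E_smul e c 1 (s x) (t x)
        rw [one_smul, mul_one] at this
        exact this
      rw [h2, dotProduct_smul, hW x hx, smul_zero]
    have hd : dt (t i) (t j) ≠ 0 := (h.2.2 i j hij).resolve_left
      (fun h0 => h0 (dt_comm0 (hsi j (by simp))))
    obtain ⟨t₀, ht₀, hiff⟩ := h_plane e he ξ hξ (s i) (t i) (t j) (h.1 i) hd
      (hz i hi (dt_self _)) (hz j hj (hsi j (by simp)))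
    refine ⟨s i, t₀, h.1 i, ht₀, ?_, Or.inl ?_⟩
    · refine hcard.trans (Nat.add_le_add_right (Finset.card_le_card ?_) 1)
      intro x hx
      rw [Finset.mem_union, mem_cls, mem_cls]
      exact (hiff _ _).mp (hW x hx)
    · exact h3 _ (mem_cls.mpr (dt_self _)) (mem_cls.mpr (hsi j (by simp)))
        (mem_cls.mpr (hsi k (by simp)))
  · have hti : ∀ x, x = i ∨ x = j ∨ x = k → dt (t x) (t i) = 0 := by
      rintro x (rfl | rfl | rfl)
      · exact ht 0 0
      · exact ht 1 0
      · exact ht 2 0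
    have hz : ∀ x, x ∈ W → dt (t x) (t i) = 0 → ξ ⬝ᵥ E (Q.sw e) (t i) (s x) = 0 := by
      intro x hx hd
      obtain ⟨c, hc, hc'⟩ := prop_dt (dt_comm0 hd) (h.2.1 i) (h.2.1 x)
      have h2 : E (Q.sw e) (t i) (s x) = c • E (Q.sw e) (t x) (s x) := by
        conv_lhs => rw [hc']
        have := E_smul (Q.sw e) c 1 (t x) (s x)
        rw [one_smul, mul_one] at this
        exact this
      rw [h2, dotProduct_smul, E_sw, hW x hx, smul_zero]
    have hd : dt (s i) (s j) ≠ 0 := (h.2.2 i j hij).resolve_right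
      (fun h0 => h0 (dt_comm0 (hti j (by simp))))
    obtain ⟨s₀, hs₀, hiff⟩ := h_plane (Q.sw e) he.sw ξ hξ (t i) (s i) (s j) (h.2.1 i) hd
      (hz i hi (dt_self _)) (hz j hj (hti j (by simp)))
    refine ⟨s₀, t i, hs₀, h.2.1 i, ?_, Or.inr ?_⟩
    · refine hcard.trans (Nat.add_le_add_right (Finset.card_le_card ?_) 1)
      intro x hx
      rw [Finset.mem_union, mem_cls, mem_cls]
      have h5 := (hiff (t x) (s x)).mp (by rw [E_sw]; exact hW x hx)
      exact h5.symm
    · exact h3 _ (mem_cls.mpr (dt_self _)) (mem_cls.mpr (hti j (by simp)))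
        (mem_cls.mpr (hti k (by simp)))

theorem t_count (h : Pts s t) (hc : Closed s t) (hn : ∀ k, (cls s (s k)).card = n) (k : K) :
    (cls t (t k)).card * n = Fintype.card K := by
  classical
  have h1 : (Finset.univ : Finset K) = (cls t (t k)).biUnion (fun i => cls s (s i)) := by
    ext x
    simp only [Finset.mem_univ, Finset.mem_biUnion, true_iff, mem_cls]
    obtain ⟨i, hi1, hi2⟩ := hc x k
    exact ⟨i, hi2, dt_comm0 hi1⟩
  rw [← Finset.card_univ, h1, Finset.card_biUnion]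
  · rw [Finset.sum_congr rfl fun i _ => hn i, Finset.sum_const, smul_eq_mul]
  · intro i hi j hj hij
    rw [Function.onFun, Finset.disjoint_left]
    intro x hx1 hx2
    rw [mem_cls] at hx1 hx2
    rw [Finset.mem_coe, mem_cls] at hi hj
    have h2 : dt (s i) (s j) = 0 := dt_trans (h.1 x) (dt_comm0 hx1) hx2
    have h3 : dt (t i) (t j) = 0 := dt_trans (h.2.1 k) hi (dt_comm0 hj)
    rcases h.2.2 i j hij with h4 | h4
    · exact h4 h2
    · exact h4 h3

/-- all lines of one family are full -/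
theorem finish (he : Basis4 e) (h : Pts s t) (ha : 3 ≤ a) (hab : a ≤ b)
    (hG : Gep (fun k => E e (s k) (t k)) a b) (hn : n = a ∨ n = b)
    (hcl : ∀ k, (cls s (s k)).card = n) : Con s t a b := by
  classical
  have hK := gep_card he h hG
  have h3 : ∀ j k, ∃ r, dt (s r) (s j) ≠ 0 ∧ dt (s r) (s k) ≠ 0 := by
    intro j k
    by_contra hcon
    push Not at hcon
    have h1 : (Finset.univ : Finset K) ⊆ cls s (s j) ∪ cls s (s k) := by
      intro x _
      rw [Finset.mem_union, mem_cls, mem_cls]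
      by_cases h2 : dt (s x) (s j) = 0
      · exact Or.inl h2
      · exact Or.inr (hcon x h2)
    have h2 := (Finset.card_le_card h1).trans (Finset.card_union_le _ _)
    rw [Finset.card_univ, hK, hcl, hcl] at h2
    rcases hn with rfl | rfl
    · nlinarith
    · nlinarith
  have hc := dt_closed h_pair h_link h_nv h_bin h_dtt he h (by omega) hab hG hn hcl h3
  refine ⟨hc, ?_⟩
  rcases hn with rfl | rfl
  · right
    intro k
    refine ⟨hcl k, ?_⟩
    have h4 := t_count h hc hcl k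
    rw [hK, mul_comm n b] at h4
    exact Nat.eq_of_mul_eq_mul_right (by omega) h4
  · left
    intro k
    refine ⟨hcl k, ?_⟩
    have h4 := t_count h hc hcl k
    rw [hK] at h4
    exact Nat.eq_of_mul_eq_mul_right (by omega) h4

/-- a line with at least `b` points has exactly `b` points -/
theorem full_eq (he : Basis4 e) (h : Pts s t) (ha : 1 ≤ a) (hab : a ≤ b)
    (hG : Gep (fun k => E e (s k) (t k)) a b) (x : Fin 2 → ℂ) (hx : x ≠ 0)
    (hb : b ≤ (cls s x).card) : (cls s x).card = b := by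
  rcases gep_line h_pair h_link h_full he h ha hab hG x hx (hab.trans hb) with h1 | h1
  · exact h1.1
  · omega

end

end Pool.Agent.Y206.Q
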