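import Pool.Agent.Y206.Q.Ind
import Pool.Agent.Y151.QG.Ndg

set_option autoImplicit false
open MvPolynomial
open Pool.Agent.Helper947.Geo
open Pool.Agent.Y206.G
open Pool.Agent.Y689.QG

namespace Pool.Agent.Y206.Q

theorem exists_annihilator {K : Type} (z : K → Fin 4 → ℂ)
    (hsp : Submodule.span ℂ (Set.range z) ≠ ⊤) : ∃ ξ : Fin 4 → ℂ, ξ ≠ 0 ∧ ∀ k, ξ ⬝ᵥ z k = 0 := by
  obtain ⟨f, hf0, hf⟩ := Submodule.exists_le_ker_of_lt_top _ (lt_top_iff_ne_top.mpr hsp)
  have h1 : ∀ x, f x = (fun i => f (Pi.single i 1)) ⬝ᵥ x := by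
    intro x
    have h3 : x = ∑ i, x i • (Pi.single i (1 : ℂ) : Fin 4 → ℂ) := by
      funext j
      simp [Finset.sum_apply, Pi.single_apply]
    conv_lhs => rw [h3]
    rw [map_sum]
    simp only [map_smul, smul_eq_mul, dotProduct]
    exact Finset.sum_congr rfl fun i _ => mul_comm _ _
  refine ⟨fun i => f (Pi.single i 1), ?_, ?_⟩
  · intro h0
    apply hf0
    apply LinearMap.ext
    intro x
    rw [h1, h0, zero_dotProduct]
    rfl
  · intro k
    rw [← h1]
    exact hf (Submodule.subset_span ⟨k, rfl⟩)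

section
variable {e : Fin 2 → Fin 2 → Fin 4 → ℂ} {K : Type} [Fintype K] {s t : K → Fin 2 → ℂ} {a b n : ℕ}

/-- type `(2, b)` with a line with three points -/
theorem type_two_line (hONE : S_ONE) (he : Basis4 e) (h : Pts s t) (hb : 3 ≤ b)
    (hG : Gep (fun k => E e (s k) (t k)) 2 b) (x : Fin 2 → ℂ) (hx : x ≠ 0)
    (h3 : 3 ≤ (cls s x).card) : (cls s x).card = b ∧
      ((∀ j k, dt (s j) x ≠ 0 → dt (s k) x ≠ 0 → dt (s j) (s k) = 0) ∨
        ∀ j k, dt (s j) x ≠ 0 → dt (s k) x ≠ 0 → dt (t j) (t k) = 0) := by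
  classical
  rcases gep_line h_pair h_link h_full he h (by norm_num) (by omega) hG x hx (by omega) with
    ⟨h1, h2⟩ | ⟨h1, -⟩
  · refine ⟨h1, ?_⟩
    rcases hONE e he _ _ _ (pts_sub h _) b hb h2 with h4 | h4
    · exact Or.inl fun j k hj hk => h4 ⟨j, hj⟩ ⟨k, hk⟩
    · exact Or.inr fun j k hj hk => h4 ⟨j, hj⟩ ⟨k, hk⟩
  · omega

/-- type `(2, b)` -/
theorem type_two (hONE : S_ONE) (he : Basis4 e) (h : Pts s t) (hb : 3 ≤ b)
    (hG : Gep (fun k => E e (s k) (t k)) 2 b) :
    (∃ x, x ≠ 0 ∧ (cls s x).card = b ∧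
      ((∀ j k, dt (s j) x ≠ 0 → dt (s k) x ≠ 0 → dt (s j) (s k) = 0) ∨
        ∀ j k, dt (s j) x ≠ 0 → dt (s k) x ≠ 0 → dt (t j) (t k) = 0)) ∨
    (∃ y, y ≠ 0 ∧ (cls t y).card = b ∧
      ((∀ j k, dt (t j) y ≠ 0 → dt (t k) y ≠ 0 → dt (t j) (t k) = 0) ∨
        ∀ j k, dt (t j) y ≠ 0 → dt (t k) y ≠ 0 → dt (s j) (s k) = 0)) ∨
    ∀ j k, j ≠ k → dt (s j) (s k) ≠ 0 ∧ dt (t j) (t k) ≠ 0 := by
  classical
  have hK := gep_card he h hG
  by_cases hx : ∃ x, x ≠ 0 ∧ 3 ≤ (cls s x).card
  · obtain ⟨x, hx, h3⟩ := hx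
    exact Or.inl ⟨x, hx, type_two_line hONE he h hb hG x hx h3⟩
  by_cases hy : ∃ y, y ≠ 0 ∧ 3 ≤ (cls t y).card
  · obtain ⟨y, hy, h3⟩ := hy
    exact Or.inr (Or.inl ⟨y, hy, type_two_line hONE he.sw h.sw hb (gep_sw hG) y hy h3⟩)
  right; right
  push Not at hx hy
  have hKpos : 0 < Fintype.card K := by rw [hK]; omega
  obtain ⟨k₀⟩ := Fintype.card_pos_iff.mp hKpos
  by_cases hsp : Submodule.span ℂ (Set.range fun k => E e (s k) (t k)) = ⊤
  · exfalso
    obtain ⟨s₀, t₀, hs₀, ht₀, -, h4 | h4⟩ := plane_lines he h hsp (by omega) hG k₀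
    · exact absurd h4 (by have := hx s₀ hs₀; omega)
    · exact absurd h4 (by have := hy t₀ ht₀; omega)
  · obtain ⟨ξ, hξ, hz⟩ := exists_annihilator _ hsp
    rcases h_conic e he ξ hξ with ⟨s₀, t₀, hs₀, ht₀, hiff⟩ | hcon
    · exfalso
      have h1 : (Finset.univ : Finset K) ⊆ cls s s₀ ∪ cls t t₀ := by
        intro x _
        rw [Finset.mem_union, mem_cls, mem_cls]
        exact (hiff _ _).mp (hz x)
      have h2 := (Finset.card_le_card h1).trans (Finset.card_union_le _ _)
      rw [Finset.card_univ, hK] at h2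
      have h4 := hx s₀ hs₀
      have h5 := hy t₀ ht₀
      omega
    · intro j k hjk
      have h1 := hcon _ _ _ _ (h.1 j) (h.2.1 j) (h.1 k) (h.2.1 k) (hz j) (hz k)
      rcases h.2.2 j k hjk with h2 | h2
      · exact ⟨h2, fun h3 => h2 (h1.mpr h3)⟩
      · exact ⟨fun h3 => h2 (h1.mp h3), h2⟩

/-- the mixed case: two `s`-lines with `b` points and a set of `b` points on a `t`-line -/
theorem mixed_b (he : Basis4 e) (h : Pts s t) (ha : 1 ≤ a) (hab : a ≤ b)
    (hG : Gep (fun k => E e (s k) (t k)) a b) (s₁ s₂ y : Fin 2 → ℂ) (hs₁ : s₁ ≠ 0)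
    (hs₂ : s₂ ≠ 0) (hy : y ≠ 0) (hd : dt s₁ s₂ ≠ 0) (h1 : (cls s s₁).card = b)
    (h2 : (cls s s₂).card = b)
    (R : Finset K) (hR : b ≤ R.card) (hRy : ∀ k ∈ R, dt (t k) y = 0)
    (hR1 : ∀ k ∈ R, dt (s k) s₁ ≠ 0) (hR2 : ∀ k ∈ R, dt (s k) s₂ ≠ 0) : False := by
  classical
  have hsub : R ⊆ cls t y := fun k hk => mem_cls.mpr (hRy k hk)
  have h3 : (cls t y).card = b := full_eq he.sw h.sw ha hab (gep_sw hG) y hy
    (hR.trans (Finset.card_le_card hsub))
  have h4 : R = cls t y := Finset.eq_of_subset_of_card_le hsub (by rw [h3]; exact hR)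
  refine dt_mixed h_pair h_link h_nv h_bin h_dtm he h ha hab hG (Or.inr rfl) s₁ s₂ y hs₁ hs₂ hy hd
    h1 h2 h3 ?_ ?_
  · intro k hk hk2
    exact hR1 k (by rw [h4]; exact mem_cls.mpr hk2) hk
  · intro k hk hk2
    exact hR2 k (by rw [h4]; exact mem_cls.mpr hk2) hk

/-- the case `a = 3`, first line with `b` points -/
theorem case_three (hONE : S_ONE) (he : Basis4 e) (h : Pts s t) (hb : 3 ≤ b)
    (hG : Gep (fun k => E e (s k) (t k)) 3 b) (s₀ : Fin 2 → ℂ) (hs₀ : s₀ ≠ 0)
    (hΛ : (cls s s₀).card = b)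
    (hG₁ : Gep (fun k : {k // dt (s k) s₀ ≠ 0} => E e (s k.1) (t k.1)) 2 b) : Con s t 3 b := by
  classical
  have hK := gep_card he h hG
  have hP₁ := pts_sub h (fun k => dt (s k) s₀ ≠ 0)
  have hdc : ∀ x y : Fin 2 → ℂ, dt x y ≠ 0 → dt y x ≠ 0 := fun x y hxy h0 => hxy (dt_comm0 h0)
  rcases type_two hONE he hP₁ hb hG₁ with ⟨x, hx, hxc, hrest⟩ | ⟨y, hy, hyc, hrest⟩ | hcon
  · -- an `s`-line
    have hxs₀ : dt x s₀ ≠ 0 := by
      intro h0
      have h1 : (cls (fun k : {k // dt (s k) s₀ ≠ 0} => s k.1) x).Nonempty := by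
        rw [← Finset.card_pos, hxc]; omega
      obtain ⟨k, hk⟩ := h1
      have h2 := mem_cls.mp hk
      exact k.2 (dt_trans hx h2 h0)
    have hxK : (cls s x).card = b := by
      rw [← hxc, cls_sub]
      congr 1
      rw [Finset.filter_true_of_mem]
      intro k hk h0
      exact hxs₀ (dt_trans (h.1 k) (dt_comm0 (mem_cls.mp hk)) h0)
    set R : Finset K := Finset.univ.filter (fun k => dt (s k) s₀ ≠ 0 ∧ dt (s k) x ≠ 0) with hR
    have hRm : ∀ k, k ∈ R ↔ dt (s k) s₀ ≠ 0 ∧ dt (s k) x ≠ 0 := fun k => by simp [hR]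
    have hRcard : R.card = b := by
      have h1 : (Finset.univ : Finset K) = (cls s s₀ ∪ cls s x) ∪ R := by
        ext k
        simp only [Finset.mem_univ, Finset.mem_union, mem_cls, hRm, true_iff]
        tauto
      have h2 : Disjoint (cls s s₀ ∪ cls s x) R := by
        rw [Finset.disjoint_left]
        intro k hk1 hk2
        rw [Finset.mem_union, mem_cls, mem_cls] at hk1
        rw [hRm] at hk2
        tauto
      have h3 : Disjoint (cls s s₀) (cls s x) := by
        rw [Finset.disjoint_left]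
        intro k hk1 hk2
        rw [mem_cls] at hk1 hk2
        exact hxs₀ (dt_trans (h.1 k) (dt_comm0 hk2) hk1)
      have h4 := congrArg Finset.card h1
      rw [Finset.card_univ, hK, Finset.card_union_of_disjoint h2,
        Finset.card_union_of_disjoint h3, hΛ, hxK] at h4
      omega
    rcases hrest with hss | htt
    · -- all `s`-classes have `b` points
      refine finish he h le_rfl hb hG (Or.inr rfl) (fun k => ?_)
      by_cases hk : dt (s k) s₀ = 0
      · rw [cls_eq (s k) s₀ (h.1 k) hs₀ hk, hΛ]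
      by_cases hk2 : dt (s k) x = 0
      · rw [cls_eq (s k) x (h.1 k) hx hk2, hxK]
      · rw [← hRcard]
        congr 1
        ext j
        rw [mem_cls, hRm]
        constructor
        · intro hj
          exact ⟨fun h0 => hk (dt_trans (h.1 j) (dt_comm0 hj) h0),
            fun h0 => hk2 (dt_trans (h.1 j) (dt_comm0 hj) h0)⟩
        · rintro ⟨hj1, hj2⟩
          exact hss ⟨j, hj1⟩ ⟨k, hk⟩ hj2 hk2
    · exfalso
      obtain ⟨r, hr⟩ : R.Nonempty := by rw [← Finset.card_pos, hRcard]; omega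
      refine mixed_b he h (by norm_num) hb hG s₀ x (t r) hs₀ hx (h.2.1 r) (hdc _ _ hxs₀) hΛ hxK R
        hRcard.ge ?_ (fun k hk => ((hRm k).mp hk).1) (fun k hk => ((hRm k).mp hk).2)
      intro k hk
      exact htt ⟨k, ((hRm k).mp hk).1⟩ ⟨r, ((hRm r).mp hr).1⟩ ((hRm k).mp hk).2 ((hRm r).mp hr).2
  · exfalso
    -- a `t`-line
    set A : Finset K := Finset.univ.filter (fun k => dt (s k) s₀ ≠ 0 ∧ dt (t k) y = 0) with hA
    have hAm : ∀ k, k ∈ A ↔ dt (s k) s₀ ≠ 0 ∧ dt (t k) y = 0 := fun k => by simp [hA]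
    set R : Finset K := Finset.univ.filter (fun k => dt (s k) s₀ ≠ 0 ∧ dt (t k) y ≠ 0) with hR
    have hRm : ∀ k, k ∈ R ↔ dt (s k) s₀ ≠ 0 ∧ dt (t k) y ≠ 0 := fun k => by simp [hR]
    have hAcard : A.card = b := by
      rw [← hyc, cls_sub]
      congr 1
      ext k
      rw [hAm, Finset.mem_filter, mem_cls]
      tauto
    have hRcard : R.card = b := by
      have h1 : (Finset.univ : Finset K) = (cls s s₀ ∪ A) ∪ R := by
        ext k
        simp only [Finset.mem_univ, Finset.mem_union, mem_cls, hRm, hAm, true_iff]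
        tauto
      have h2 : Disjoint (cls s s₀ ∪ A) R := by
        rw [Finset.disjoint_left]
        intro k hk1 hk2
        rw [Finset.mem_union, mem_cls, hAm] at hk1
        rw [hRm] at hk2
        tauto
      have h3 : Disjoint (cls s s₀) A := by
        rw [Finset.disjoint_left]
        intro k hk1 hk2
        rw [mem_cls] at hk1
        rw [hAm] at hk2
        exact hk2.1 hk1
      have h4 := congrArg Finset.card h1
      rw [Finset.card_univ, hK, Finset.card_union_of_disjoint h2,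
        Finset.card_union_of_disjoint h3, hΛ, hAcard] at h4
      omega
    obtain ⟨r, hr⟩ : R.Nonempty := by rw [← Finset.card_pos, hRcard]; omega
    have hAy : A ⊆ cls t y := fun k hk => mem_cls.mpr ((hAm k).mp hk).2
    have hyK : (cls t y).card = b := full_eq he.sw h.sw (by norm_num) hb (gep_sw hG) y hy
      (by rw [← hAcard]; exact Finset.card_le_card hAy)
    have hAe : A = cls t y := Finset.eq_of_subset_of_card_le hAy (by rw [hyK, hAcard])
    rcases hrest with htt | hss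
    · -- the rest is on a `t`-line
      have hry := ((hRm r).mp hr).2
      have hRr : R ⊆ cls t (t r) := fun k hk => mem_cls.mpr
        (htt ⟨k, ((hRm k).mp hk).1⟩ ⟨r, ((hRm r).mp hr).1⟩ ((hRm k).mp hk).2 hry)
      have hrK : (cls t (t r)).card = b := full_eq he.sw h.sw (by norm_num) hb (gep_sw hG) (t r)
        (h.2.1 r) (by rw [← hRcard]; exact Finset.card_le_card hRr)
      have hRe : R = cls t (t r) := Finset.eq_of_subset_of_card_le hRr (by rw [hrK, hRcard])
      refine mixed_b he.sw h.sw (by norm_num) hb (gep_sw hG) y (t r) s₀ hy (h.2.1 r) hs₀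
        (fun h0 => hry (dt_comm0 h0)) hyK hrK (cls s s₀) hΛ.ge (fun k hk => mem_cls.mp hk) ?_ ?_
      · intro k hk h0
        have h1 : k ∈ A := by rw [hAe]; exact mem_cls.mpr h0
        exact ((hAm k).mp h1).1 (mem_cls.mp hk)
      · intro k hk h0
        have h1 : k ∈ R := by rw [hRe]; exact mem_cls.mpr h0
        exact ((hRm k).mp h1).1 (mem_cls.mp hk)
    · -- the rest is on an `s`-line
      have hry := ((hRm r).mp hr).2
      have hrs₀ := ((hRm r).mp hr).1
      have hRr : R ⊆ cls s (s r) := fun k hk => mem_cls.mpr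
        (hss ⟨k, ((hRm k).mp hk).1⟩ ⟨r, ((hRm r).mp hr).1⟩ ((hRm k).mp hk).2 hry)
      have hrK : (cls s (s r)).card = b := full_eq he h (by norm_num) hb hG (s r)
        (h.1 r) (by rw [← hRcard]; exact Finset.card_le_card hRr)
      have hRe : R = cls s (s r) := Finset.eq_of_subset_of_card_le hRr (by rw [hrK, hRcard])
      refine mixed_b he h (by norm_num) hb hG s₀ (s r) y hs₀ (h.1 r) hy (hdc _ _ hrs₀) hΛ hrK A
        hAcard.ge (fun k hk => ((hAm k).mp hk).2) (fun k hk => ((hAm k).mp hk).1) ?_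
      intro k hk h0
      have h1 : k ∈ R := by rw [hRe]; exact mem_cls.mpr h0
      exact ((hRm k).mp h1).2 ((hAm k).mp hk).2
  · exfalso
    -- the conic
    have hsp := Pool.Agent.Y151.QG.ndg e he K s t 3 b le_rfl hb hG
    have hKpos : 0 < Fintype.card K := by rw [hK]; omega
    obtain ⟨k₀⟩ := Fintype.card_pos_iff.mp hKpos
    obtain ⟨s', t', hs', ht', hcard, h3⟩ := plane_lines he h hsp (by omega) hG k₀
    -- the `t`-lines have at most one point off `s₀`
    have hoff : ((cls t t').filter (fun k => dt (s k) s₀ ≠ 0)).card ≤ 1 := by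
      rw [Finset.card_le_one]
      intro j hj k hk
      rw [Finset.mem_filter, mem_cls] at hj hk
      by_contra hjk
      exact (hcon ⟨j, hj.2⟩ ⟨k, hk.2⟩ (fun h0 => hjk (congrArg Subtype.val h0))).2
        (dt_trans ht' hj.1 (dt_comm0 hk.1))
    have hon : ((cls t t').filter (fun k => ¬ dt (s k) s₀ ≠ 0)).card ≤ 1 := by
      rw [Finset.card_le_one]
      intro j hj k hk
      rw [Finset.mem_filter, mem_cls, not_not] at hj hk
      by_contra hjk
      rcases h.2.2 j k hjk with h4 | h4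
      · exact h4 (dt_trans hs₀ hj.2 (dt_comm0 hk.2))
      · exact h4 (dt_trans ht' hj.1 (dt_comm0 hk.1))
    have htot := Finset.card_filter_add_card_filter_not (s := cls t t')
      (fun k => dt (s k) s₀ ≠ 0)
    have h4 : 3 ≤ (cls s s').card := by
      rcases h3 with h3 | h3
      · exact h3
      · omega
    have h5 : dt s' s₀ = 0 := by
      by_contra h0
      have h6 : (cls s s').card ≤ 1 := by
        rw [Finset.card_le_one]
        intro j hj k hk
        rw [mem_cls] at hj hk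
        by_contra hjk
        have hj' : dt (s j) s₀ ≠ 0 := fun h7 => h0 (dt_trans (h.1 j) (dt_comm0 hj) h7)
        have hk' : dt (s k) s₀ ≠ 0 := fun h7 => h0 (dt_trans (h.1 k) (dt_comm0 hk) h7)
        exact (hcon ⟨j, hj'⟩ ⟨k, hk'⟩ (fun h0 => hjk (congrArg Subtype.val h0))).1
          (dt_trans hs' hj (dt_comm0 hk))
      omega
    have h6 : cls s s' ∪ cls t t' ⊆ cls s s₀ ∪ (cls t t').filter (fun k => dt (s k) s₀ ≠ 0) := by
      intro k hk
      rw [Finset.mem_union, mem_cls, mem_cls] at hk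
      rw [Finset.mem_union, mem_cls, Finset.mem_filter, mem_cls]
      by_cases h7 : dt (s k) s₀ = 0
      · exact Or.inl h7
      · rcases hk with h8 | h8
        · exact absurd (dt_trans hs' h8 h5) h7
        · exact Or.inr ⟨h8, h7⟩
    have h7 := (Finset.card_le_card h6).trans (Finset.card_union_le _ _)
    omega

end

end Pool.Agent.Y206.Q
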