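import Pool.Agent.Y206.G.Plane

set_option autoImplicit false
open MvPolynomial
open Pool.Agent.Helper947.Geo

namespace Pool.Agent.Y206.G

/-- the common denominator -/
theorem exists_kappa2 {d : ℕ} {K : Type} [Fintype K] (z : K → Fin d → ℂ) (D c : ℕ)
    (hsp : ∀ η : Fin d → ℂ, (∀ k, η ⬝ᵥ z k = 0) → η = 0)
    (l : K → MvPolynomial (Fin d) ℂ) (hl0 : ∀ k, l k ≠ 0) (hlD : ∀ k, (l k).IsHomogeneous D)
    (Q : MvPolynomial (Fin d) ℂ) (hQ : Q ≠ 0)
    (g : Fin d → MvPolynomial (Fin d) ℂ) (hg : ∑ j, g j * X j = C (c : ℂ) * Q)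
    (hs : ∀ k, Q * DD (z k) (l k) = lin g (z k) * l k)
    (hp : ∀ δ : MvPolynomial (Fin d) ℂ, Irreducible δ → δ ∣ Q → ∃ j, ¬ δ ∣ g j)
    (m : ℕ) (hrel : Rel z m l) (hprim : ∀ δ : MvPolynomial (Fin d) ℂ, Irreducible δ → ∃ k, ¬ δ ∣ l k)
    (hind : ∀ c : K → ℂ, (∀ η, ∑ k, c k * (z k ⬝ᵥ η) ^ m = 0) → ∀ k, c k = 0) :
    ∃ (s : ℕ) (η : Fin s → Fin d → ℂ) (μ : Fin s → ℕ), (∀ i, lf (η i) ∣ Q) ∧
      (∀ i, Irreducible (lf (η i))) ∧
      (∀ i j, i ≠ j → ¬ lf (η i) ∣ lf (η j)) ∧ (∀ i, 1 ≤ μ i) ∧ ∑ i, μ i = c ∧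
      (∀ i k, η i ⬝ᵥ z k ≠ 0 → ∃ ν, l k = lf (η i) ^ μ i * ν ∧ ¬ lf (η i) ∣ ν) ∧
      ∀ k, (∏ i, lf (η i) ^ μ i) * DD (z k) (l k) = l k * DD (z k) (∏ i, lf (η i) ^ μ i) := by
  classical
  obtain ⟨F, hFp, hFQ⟩ := UniqueFactorizationMonoid.exists_prime_factors Q hQ
  obtain ⟨L, rfl⟩ : ∃ L : List (MvPolynomial (Fin d) ℂ), F = (L : Multiset _) :=
    ⟨F.toList, (Multiset.coe_toList F).symm⟩
  rw [Multiset.prod_coe, ← Fin.prod_univ_getElem] at hFQ
  have hbp : ∀ i : Fin L.length, Prime (L[i.1]) := fun i =>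
    hFp _ (by simp)
  have hbQ : ∀ i : Fin L.length, L[i.1] ∣ Q := by
    intro i
    exact (Finset.dvd_prod_of_mem (fun i : Fin L.length => L[i.1]) (Finset.mem_univ i)).trans
      hFQ.dvd
  choose η μ Q' hass hirr hμ hQQ' hnd hν hres using fun i : Fin L.length =>
    ek_pole' z hsp l hl0 Q hQ g hs hp m hrel hprim hind (L[i.1]) (hbp i).irreducible (hbQ i)
  have hPQ : Associated (∏ i, lf (η i)) Q :=
    (Associated.prod Finset.univ _ _ (fun i _ => (hass i).symm)).trans hFQ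
  have hpair : ∀ i j, i ≠ j → ¬ lf (η i) ∣ lf (η j) := by
    intro i j hij hd
    have h1 : lf (η i) * lf (η j) ∣ ∏ i, lf (η i) := by
      rw [← Finset.mul_prod_erase Finset.univ (fun i => lf (η i)) (Finset.mem_univ i)]
      refine mul_dvd_mul_left _ ?_
      exact Finset.dvd_prod_of_mem (fun i => lf (η i))
        (Finset.mem_erase.mpr ⟨hij.symm, Finset.mem_univ j⟩)
    have h2 : lf (η i) * lf (η j) ∣ lf (η i) * Q' i := by
      rw [← hQQ' i]
      exact h1.trans hPQ.dvd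
    have h4 := (mul_dvd_mul_iff_left (hirr i).ne_zero).mp h2
    exact hnd i (hd.trans h4)
  have hprime : ∀ i, Prime (lf (η i)) := fun i => (hirr i).prime
  have hdQ' : ∀ i j, i ≠ j → lf (η i) ∣ Q' j := by
    intro i j hij
    have h1 : lf (η i) ∣ lf (η j) * Q' j := by
      rw [← hQQ' j, hQQ' i]
      exact Dvd.intro _ rfl
    rcases (hprime i).dvd_or_dvd h1 with h2 | h2
    · exact absurd h2 (hpair i j hij)
    · exact h2
  have hQdvd : ∀ x : Fin d → ℂ, Q ∣ lin g x - ∑ i, C ((μ i : ℂ) * (η i ⬝ᵥ x)) * Q' i := by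
    intro x
    refine hPQ.symm.dvd.trans ?_
    refine Fintype.prod_dvd_of_isRelPrime ?_ ?_
    · intro i j hij
      exact (hirr i).isRelPrime_iff_not_dvd.mpr (hpair i j hij)
    · intro i
      rw [← Finset.add_sum_erase Finset.univ _ (Finset.mem_univ i), ← sub_sub]
      refine dvd_sub (hres i x) ?_
      refine Finset.dvd_sum ?_
      intro j hj
      exact dvd_mul_of_dvd_right (hdQ' i j (Finset.ne_of_mem_erase hj).symm) _
  have hgj : ∀ j : Fin d, ∃ R : MvPolynomial (Fin d) ℂ,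
      g j = ∑ i, C ((μ i : ℂ) * η i j) * Q' i + Q * R := by
    intro j
    obtain ⟨R, hR⟩ := hQdvd (Pi.single j 1)
    refine ⟨R, ?_⟩
    have h1 : lin g (Pi.single j 1) = g j := by
      unfold lin
      rw [Finset.sum_eq_single j]
      · simp
      · intro b _ hb
        rw [Pi.single_eq_of_ne hb]
        simp
      · intro h
        exact absurd (Finset.mem_univ j) h
    rw [h1] at hR
    have h2 : ∀ i, η i ⬝ᵥ Pi.single j 1 = η i j := by
      intro i
      simp
    simp only [h2] at hR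
    linear_combination hR
  choose R hR using hgj
  have hlin : ∀ x : Fin d → ℂ, lin g x = ∑ i, C ((μ i : ℂ) * (η i ⬝ᵥ x)) * Q' i +
      Q * ∑ j, R j * C (x j) := by
    intro x
    unfold lin
    have h1 : ∀ j, g j * C (x j) = ∑ i, C ((μ i : ℂ) * η i j) * Q' i * C (x j) +
        Q * (R j * C (x j)) := by
      intro j
      conv_lhs => rw [hR j]
      rw [add_mul, Finset.sum_mul]
      ring
    rw [Finset.sum_congr rfl (fun j _ => h1 j), Finset.sum_add_distrib, ← Finset.mul_sum]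
    congr 1
    rw [Finset.sum_comm]
    apply Finset.sum_congr rfl
    intro i _
    simp only [dotProduct]
    rw [Finset.mul_sum, map_sum, Finset.sum_mul]
    apply Finset.sum_congr rfl
    intro j _
    rw [← mul_assoc, C_mul (a := (μ i : ℂ) * η i j)]
    ring
  set κ : MvPolynomial (Fin d) ℂ := ∏ i, lf (η i) ^ μ i with hκ
  have hκ0 : κ ≠ 0 := by
    rw [hκ]
    exact Finset.prod_ne_zero_iff.mpr (fun i _ => pow_ne_zero _ (hirr i).ne_zero)
  have hlfh : ∀ η : Fin d → ℂ, (lf η).IsHomogeneous 1 := by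
    intro η
    unfold lf
    refine IsHomogeneous.sum _ _ _ ?_
    intro i _
    exact (isHomogeneous_X ℂ i).C_mul _
  have hκh : κ.IsHomogeneous (∑ i, μ i) := by
    rw [hκ]
    refine IsHomogeneous.prod _ _ _ ?_
    intro i _
    have := (hlfh (η i)).pow (μ i)
    rwa [one_mul] at this
  have hDκ : ∀ x : Fin d → ℂ, Q * DD x κ = κ * ∑ i, C ((μ i : ℂ) * (η i ⬝ᵥ x)) * Q' i := by
    intro x
    have h1 := ek_DD_prod x (fun i => lf (η i)) Q' μ Q hQQ' Finset.univ
    simp only [DD_lf] at h1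
    rw [hκ, h1]
    congr 1
    apply Finset.sum_congr rfl
    intro i _
    rw [C_mul]
  have hRz : ∀ k, ∑ j, R j * C (z k j) = 0 := by
    intro k
    refine ek_R_zero (z k) κ (l k) _ (∑ i, μ i) D hκ0 (hl0 k) hκh (hlD k) ?_
    apply mul_left_cancel₀ hQ
    have h1 := hs k
    have h2 := hDκ (z k)
    have h4 := hlin (z k)
    calc Q * (κ * DD (z k) (l k) - l k * DD (z k) κ)
        = κ * (Q * DD (z k) (l k)) - l k * (Q * DD (z k) κ) := by ring
      _ = κ * (lin g (z k) * l k) - l k * (κ * ∑ i, C ((μ i : ℂ) * (η i ⬝ᵥ z k)) * Q' i) := by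
          rw [h1, h2]
      _ = Q * (κ * l k * ∑ j, R j * C (z k j)) := by
          rw [h4]
          ring
  have hR0 : ∀ j, R j = 0 := by
    intro j
    ext m
    rw [coeff_zero]
    have h1 : (fun j => coeff m (R j)) = 0 := by
      apply hsp
      intro k
      have h2 := congrArg (coeff m) (hRz k)
      rw [coeff_sum, coeff_zero] at h2
      have h5 : ∀ x, coeff m (R x * C (z k x)) = coeff m (R x) * z k x := by
        intro x
        rw [mul_comm, coeff_C_mul, mul_comm]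
      simp only [h5] at h2
      exact h2
    exact congrFun h1 j
  have hlin0 : ∀ x : Fin d → ℂ, lin g x = ∑ i, C ((μ i : ℂ) * (η i ⬝ᵥ x)) * Q' i := by
    intro x
    rw [hlin x]
    simp [hR0]
  refine ⟨L.length, η, μ, fun i => ⟨Q' i, hQQ' i⟩, hirr, hpair, hμ, ?_, ?_, ?_⟩
  · have h1 : ∑ j, g j * X j = C ((∑ i, μ i : ℕ) : ℂ) * Q := by
      have h2 : ∀ j, g j * X j = ∑ i, C ((μ i : ℂ) * η i j) * Q' i * X j := by
        intro j
        conv_lhs => rw [hR j, hR0 j, mul_zero, add_zero]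
        rw [Finset.sum_mul]
      rw [Finset.sum_congr rfl (fun j _ => h2 j), Finset.sum_comm]
      have h5 : ∀ i, ∑ j, C ((μ i : ℂ) * η i j) * Q' i * X j = C (μ i : ℂ) * Q := by
        intro i
        conv_rhs => rw [hQQ' i]
        unfold lf
        rw [Finset.sum_mul, Finset.mul_sum]
        apply Finset.sum_congr rfl
        intro j _
        rw [C_mul]
        ring
      rw [Finset.sum_congr rfl (fun i _ => h5 i), ← Finset.sum_mul]
      congr 1
      push_cast
      rw [map_sum]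
    rw [hg] at h1
    have h6 := mul_right_cancel₀ hQ h1
    have h7 := C_injective (Fin d) ℂ h6
    exact_mod_cast h7.symm
  · intro i k hik
    exact hν i k hik
  · intro k
    apply mul_left_cancel₀ hQ
    have h1 := hs k
    have h2 := hDκ (z k)
    have h4 := hlin0 (z k)
    calc Q * (κ * DD (z k) (l k)) = κ * (Q * DD (z k) (l k)) := by ring
      _ = κ * ((∑ i, C ((μ i : ℂ) * (η i ⬝ᵥ z k)) * Q' i) * l k) := by rw [h1, h4]
      _ = l k * (Q * DD (z k) κ) := by
          rw [h2]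
          ring
      _ = Q * (l k * DD (z k) κ) := by ring

end Pool.Agent.Y206.G
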