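import Pool.Agent.Y206.Q.Ind2

set_option autoImplicit false
open MvPolynomial
open Pool.Agent.Helper947.Geo
open Pool.Agent.Y206.G
open Pool.Agent.Y689.QG

namespace Pool.Agent.Y206.Q

section
variable {e : Fin 2 → Fin 2 → Fin 4 → ℂ} {K : Type} [Fintype K] {s t : K → Fin 2 → ℂ} {a b n : ℕ}

theorem cls_off (h : Pts s t) (x : Fin 2 → ℂ) (k : K) (hk : dt (s k) x ≠ 0)
    [DecidablePred fun k => dt (s k) x ≠ 0] :
    (cls (fun k : {k // dt (s k) x ≠ 0} => s k.1) (s k)).card = (cls s (s k)).card := by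
  classical
  rw [cls_sub]
  congr 1
  rw [Finset.filter_true_of_mem]
  intro j hj h0
  exact hk (dt_trans (h.1 j) (dt_comm0 (mem_cls.mp hj)) h0)

/-- the induction step, with a full `s`-line -/
theorem step (hONE : S_ONE) (ih : ∀ m, m < a + b → ∀ (K : Type) [Fintype K]
      (e : Fin 2 → Fin 2 → Fin 4 → ℂ), Basis4 e → ∀ (s t : K → Fin 2 → ℂ), Pts s t →
      ∀ a b, a + b = m → 3 ≤ a → a ≤ b → Gep (fun k => E e (s k) (t k)) a b → Con s t a b)
    (he : Basis4 e) (h : Pts s t) (ha : 3 ≤ a) (hab : a ≤ b)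
    (hG : Gep (fun k => E e (s k) (t k)) a b) (x : Fin 2 → ℂ) (hx : x ≠ 0)
    (hxc : a ≤ (cls s x).card) : Con s t a b := by
  classical
  have hP₁ := pts_sub h (fun k => dt (s k) x ≠ 0)
  rcases gep_line h_pair h_link h_full he h (by omega) hab hG x hx hxc with
    ⟨hc, hG₁⟩ | ⟨hc, hne, hG₁⟩
  · by_cases ha3 : a = 3
    · subst ha3
      exact case_three hONE he h hab hG x hx hc hG₁
    obtain ⟨-, hα | hα⟩ := ih (a - 1 + b) (by omega) _ e he _ _ hP₁ (a - 1) b rfl (by omega)
      (by omega) hG₁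
    · refine finish he h ha hab hG (Or.inr rfl) (fun k => ?_)
      by_cases hk : dt (s k) x = 0
      · rw [cls_eq (s k) x (h.1 k) hx hk, hc]
      · rw [← cls_off h x k hk]
        exact (hα ⟨k, hk⟩).1
    · exfalso
      have hK₁ := gep_card he hP₁ hG₁
      have hpos : 0 < Fintype.card {k // dt (s k) x ≠ 0} := by
        rw [hK₁]
        exact Nat.mul_pos (by omega) (by omega)
      obtain ⟨k₁⟩ := Fintype.card_pos_iff.mp hpos
      have h1 : 1 < (cls (fun k : {k // dt (s k) x ≠ 0} => s k.1) (s k₁.1)).card := by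
        rw [(hα k₁).1]; omega
      obtain ⟨k₂, hk₂, hk₂'⟩ := Finset.exists_mem_ne h1 k₁
      have hs₂ := mem_cls.mp hk₂
      have hd : dt (t k₂.1) (t k₁.1) ≠ 0 :=
        (hP₁.2.2 k₂ k₁ hk₂').resolve_left fun h0 => h0 hs₂
      have hfull : ∀ k : {k // dt (s k) x ≠ 0}, (cls t (t k.1)).card = b ∧
          ∀ j, dt (s j) x = 0 → dt (t j) (t k.1) ≠ 0 := by
        intro k
        have h2 := (hα k).2
        rw [cls_sub] at h2
        have h3 : (cls t (t k.1)).card = b := full_eq he.sw h.sw (by omega) hab (gep_sw hG)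
          (t k.1) (h.2.1 k.1) (by
            rw [← h2]; exact Finset.card_le_card (Finset.filter_subset _ _))
        refine ⟨h3, fun j hj h0 => ?_⟩
        have h4 : (cls t (t k.1)).filter (fun k => dt (s k) x ≠ 0) = cls t (t k.1) :=
          Finset.eq_of_subset_of_card_le (Finset.filter_subset _ _) (by rw [h2, h3])
        have h5 : j ∈ (cls t (t k.1)).filter (fun k => dt (s k) x ≠ 0) := by
          rw [h4]; exact mem_cls.mpr h0
        exact (Finset.mem_filter.mp h5).2 hj
      refine mixed_b he.sw h.sw (by omega) hab (gep_sw hG) (t k₂.1) (t k₁.1) x (h.2.1 _)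
        (h.2.1 _) hx hd (hfull k₂).1 (hfull k₁).1 (cls s x) hc.ge (fun k hk => mem_cls.mp hk)
        (fun k hk => (hfull k₂).2 k (mem_cls.mp hk)) (fun k hk => (hfull k₁).2 k (mem_cls.mp hk))
  · have hb : a ≤ b - 1 := by omega
    obtain ⟨-, hβ⟩ := ih (a + (b - 1)) (by omega) _ e he _ _ hP₁ a (b - 1) rfl ha hb hG₁
    have hall : ∀ k, dt (s k) x ≠ 0 → (cls s (s k)).card = a := by
      intro k hk
      rw [← cls_off h x k hk]
      rcases hβ with hβ | hβ
      · have h1 := (hβ ⟨k, hk⟩).1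
        have h2 : (cls (fun k : {k // dt (s k) x ≠ 0} => s k.1) (s k)).card = b - 1 := h1
        have h3 : (cls s (s k)).card = b - 1 := by rw [← cls_off h x k hk]; exact h2
        rcases gep_line h_pair h_link h_full he h (by omega) hab hG (s k) (h.1 k)
          (by rw [h3]; exact hb) with ⟨h4, -⟩ | ⟨h4, -⟩
        · omega
        · rw [cls_off h x k hk]; exact h4
      · exact (hβ ⟨k, hk⟩).1
    refine finish he h ha hab hG (Or.inl rfl) (fun k => ?_)
    by_cases hk : dt (s k) x = 0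
    · rw [cls_eq (s k) x (h.1 k) hx hk, hc]
    · exact hall k hk

end

/-- **geproci sets of type `(a, b)`, `a, b ≥ 3`, on the Segre quadric are closed** -/
theorem main (hONE : S_ONE) : ∀ (n : ℕ) (K : Type) [Fintype K]
    (e : Fin 2 → Fin 2 → Fin 4 → ℂ), Basis4 e → ∀ (s t : K → Fin 2 → ℂ), Pts s t →
    ∀ a b, a + b = n → 3 ≤ a → a ≤ b → Gep (fun k => E e (s k) (t k)) a b → Con s t a b := by
  intro n
  induction n using Nat.strong_induction_on with
  | _ n ih =>
    intro K _ e he s t h a b hn ha hab hG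
    subst hn
    classical
    have hsp := Pool.Agent.Y151.QG.ndg e he K s t a b ha (by omega) hG
    have hK := gep_card he h hG
    have hpos : 0 < Fintype.card K := by
      rw [hK]
      exact Nat.mul_pos (by omega) (by omega)
    obtain ⟨k₀⟩ := Fintype.card_pos_iff.mp hpos
    obtain ⟨s₀, t₀, hs₀, ht₀, hcard, -⟩ := plane_lines he h hsp (by omega) hG k₀
    have h1 := Finset.card_union_le (cls s s₀) (cls t t₀)
    by_cases h2 : a ≤ (cls s s₀).card
    · exact step hONE ih he h ha hab hG s₀ hs₀ h2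
    · have h3 : a ≤ (cls t t₀).card := by omega
      exact (step hONE ih he.sw h.sw ha hab (gep_sw hG) t₀ ht₀ h3).sw

end Pool.Agent.Y206.Q
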