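import Pool.Agent.Y206.Q.StepAt

set_option autoImplicit false
open MvPolynomial
open Pool.Agent.Helper947.Geo

namespace Pool.Agent.Y206.G

/-- three vectors in a plane are dependent -/
theorem dep_of_span {d : ℕ} (a b c w w' : Fin d → ℂ) (ha : a ∈ Submodule.span ℂ {w, w'})
    (hb : b ∈ Submodule.span ℂ {w, w'}) (hc : c ∈ Submodule.span ℂ {w, w'}) :
    ¬ LinearIndependent ℂ ![a, b, c] := by
  intro h
  have h1 : Submodule.span ℂ (Set.range ![a, b, c]) ≤ Submodule.span ℂ (Set.range ![w, w']) := by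
    rw [Submodule.span_le]
    have e : Set.range ![w, w'] = {w, w'} := by
      simp [Matrix.range_cons, Matrix.range_empty, Set.pair_comm w' w]
    rintro _ ⟨i, rfl⟩
    rw [e]
    fin_cases i
    · exact ha
    · exact hb
    · exact hc
  have h2 := Submodule.finrank_mono h1
  rw [finrank_span_eq_card h, Fintype.card_fin] at h2
  have h3 := finrank_range_le_card (R := ℂ) ![w, w']
  unfold Set.finrank at h3
  rw [Fintype.card_fin] at h3
  omega

/-- a polar hyperplane without collinear triples is a simple pole -/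
theorem mu_one {K : Type} [Fintype K] [DecidableEq K] {z : K → Fin 4 → ℂ} {m D : ℕ}
    {l : K → MvPolynomial (Fin 4) ℂ} {κ : MvPolynomial (Fin 4) ℂ}
    (h : Sys z m D (D + m + 2) l κ)
    (h2 : ∀ i j, i ≠ j → LinearIndependent ℂ ![z i, z j]) (hz : ∀ k, z k ≠ 0)
    (ξ : Fin 4 → ℂ) (hξ0 : ξ ≠ 0) (hirr : Irreducible (lf ξ)) (μ : ℕ)
    (κ' : MvPolynomial (Fin 4) ℂ) (hκ : κ = lf ξ ^ μ * κ') (hκ' : ¬ lf ξ ∣ κ')
    (hprim : ∃ k, ¬ lf ξ ∣ l k) (hW : ∀ k, ¬ lf ξ ∣ l k → ξ ⬝ᵥ z k = 0)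
    (h3 : ∀ i j k, ¬ lf ξ ∣ l i → ¬ lf ξ ∣ l j → ¬ lf ξ ∣ l k → i ≠ j → i ≠ k → j ≠ k →
      LinearIndependent ℂ ![z i, z j, z k]) : μ ≤ 1 := by
  classical
  obtain ⟨k₂, hk₂⟩ := hprim
  obtain ⟨u, y', p', q', hs, -, hβ, hk⟩ := h.step_at (by norm_num) ξ hξ0 hirr 0 μ l κ'
    (fun k => by rw [pow_zero, one_mul]) hκ hκ' k₂ hk₂ (fun k hk => by
      rw [dotProduct_comm]; exact hW k hk)
  have hlin : ∀ k l, p' k ≠ 0 → p' l ≠ 0 → ∀ s t : ℂ, s • y' k + t • y' l = 0 →
      s • z k + t • z l = 0 := by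
    intro k l h1 h2 s t h3
    rw [← (hk k h1).2, ← (hk l h2).2, Finset.smul_sum, Finset.smul_sum,
      ← Finset.sum_add_distrib]
    refine Finset.sum_eq_zero fun j _ => ?_
    rw [smul_smul, smul_smul, ← add_smul]
    have := congrFun h3 j
    simp only [Pi.add_apply, Pi.smul_apply, smul_eq_mul, Pi.zero_apply] at this
    rw [this, zero_smul]
  obtain ⟨w, w', W, hWm, hcard⟩ := hs.planar (by norm_num) (by
      intro k l h1 h2' hkl
      rw [LinearIndependent.pair_iff]
      intro s t hst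
      exact LinearIndependent.pair_iff.mp (h2 k l hkl) s t (hlin k l h1 h2' s t hst)) (by
      intro k h1 h0
      apply hz k
      rw [← (hk k h1).2, h0]
      simp)
  by_contra hcon
  push Not at hcon
  have hc3 : 2 < W.card := by omega
  obtain ⟨i, j, k, hi, hj, hk', hij, hik, hjk⟩ := Finset.two_lt_card_iff.mp hc3
  refine dep_of_span (z i) (z j) (z k) (∑ j, w j • u j) (∑ j, w' j • u j) ?_ ?_ ?_
    (h3 i j k (hk i (hWm i hi).1).1 (hk j (hWm j hj).1).1 (hk k (hWm k hk').1).1 hij hik hjk)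
  · obtain ⟨h1, h2⟩ := hWm i hi
    rw [Submodule.mem_span_pair] at h2 ⊢
    obtain ⟨s, t, hst⟩ := h2
    refine ⟨s, t, ?_⟩
    rw [← (hk i h1).2, ← hst, Finset.smul_sum, Finset.smul_sum, ← Finset.sum_add_distrib]
    refine Finset.sum_congr rfl fun j _ => ?_
    simp only [Pi.add_apply, Pi.smul_apply, smul_eq_mul]
    rw [smul_smul, smul_smul, ← add_smul]
  · obtain ⟨h1, h2⟩ := hWm j hj
    rw [Submodule.mem_span_pair] at h2 ⊢
    obtain ⟨s, t, hst⟩ := h2
    refine ⟨s, t, ?_⟩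
    rw [← (hk j h1).2, ← hst, Finset.smul_sum, Finset.smul_sum, ← Finset.sum_add_distrib]
    refine Finset.sum_congr rfl fun j _ => ?_
    simp only [Pi.add_apply, Pi.smul_apply, smul_eq_mul]
    rw [smul_smul, smul_smul, ← add_smul]
  · obtain ⟨h1, h2⟩ := hWm k hk'
    rw [Submodule.mem_span_pair] at h2 ⊢
    obtain ⟨s, t, hst⟩ := h2
    refine ⟨s, t, ?_⟩
    rw [← (hk k h1).2, ← hst, Finset.smul_sum, Finset.smul_sum, ← Finset.sum_add_distrib]
    refine Finset.sum_congr rfl fun j _ => ?_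
    simp only [Pi.add_apply, Pi.smul_apply, smul_eq_mul]
    rw [smul_smul, smul_smul, ← add_smul]

/-- many large sets with small intersections have a large union -/
theorem count_sets {ι K : Type} [DecidableEq ι] [DecidableEq K] (N : ℕ) (V : ι → Finset K)
    (J : Finset ι) (h1 : ∀ i ∈ J, N ≤ (V i).card)
    (h2 : ∀ i ∈ J, ∀ j ∈ J, i ≠ j → (V i ∩ V j).card ≤ 1) :
    J.card * N ≤ (J.biUnion V).card + J.card.choose 2 := by
  induction J using Finset.induction_on with
  | empty => simp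
  | insert a s ha ih =>
    have ih' := ih (fun i hi => h1 i (Finset.mem_insert_of_mem hi))
      (fun i hi j hj => h2 i (Finset.mem_insert_of_mem hi) j (Finset.mem_insert_of_mem hj))
    rw [Finset.card_insert_of_notMem ha, Finset.biUnion_insert]
    have e1 : (V a ∩ s.biUnion V).card ≤ s.card := by
      rw [Finset.inter_biUnion]
      calc (s.biUnion fun i => V a ∩ V i).card ≤ ∑ i ∈ s, (V a ∩ V i).card :=
            Finset.card_biUnion_le
        _ ≤ ∑ i ∈ s, 1 := Finset.sum_le_sum fun i hi => h2 a (Finset.mem_insert_self _ _) i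
            (Finset.mem_insert_of_mem hi) (fun h => ha (h ▸ hi))
        _ = s.card := by simp
    have e2 := Finset.card_union_add_card_inter (V a) (s.biUnion V)
    have e3 := h1 a (Finset.mem_insert_self _ _)
    have e4 : (s.card + 1).choose 2 = s.card + s.card.choose 2 := by
      rw [Nat.choose_succ_succ' s.card 1, Nat.choose_one_right]
    rw [e4, add_mul, one_mul]
    omega

/-- vectors in the common kernel of two independent forms -/
theorem dep_of_kernels (η ζ : Fin 4 → ℂ) (hη : LinearIndependent ℂ ![η, ζ])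
    (a b c : Fin 4 → ℂ) (ha : η ⬝ᵥ a = 0 ∧ ζ ⬝ᵥ a = 0) (hb : η ⬝ᵥ b = 0 ∧ ζ ⬝ᵥ b = 0)
    (hc : η ⬝ᵥ c = 0 ∧ ζ ⬝ᵥ c = 0) : ¬ LinearIndependent ℂ ![a, b, c] := by
  intro h
  let M : (Fin 4 → ℂ) →ₗ[ℂ] (Fin 2 → ℂ) := Matrix.mulVecLin (Matrix.of ![η, ζ])
  have hM : ∀ x, η ⬝ᵥ x = 0 ∧ ζ ⬝ᵥ x = 0 → x ∈ LinearMap.ker M := by
    intro x hx
    rw [LinearMap.mem_ker]
    funext i
    fin_cases i
    · exact hx.1
    · exact hx.2
  have hsurj : LinearMap.range M = ⊤ := by
    rw [LinearMap.range_eq_top]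
    intro y
    obtain ⟨ξ, hξ⟩ := exists_coord ![η, ζ] hη y
    refine ⟨ξ, ?_⟩
    funext i
    fin_cases i
    · exact hξ 0
    · exact hξ 1
  have h1 := LinearMap.finrank_range_add_finrank_ker M
  rw [hsurj, finrank_top, Module.finrank_fin_fun, Module.finrank_fin_fun] at h1
  have h2 : Submodule.span ℂ (Set.range ![a, b, c]) ≤ LinearMap.ker M := by
    rw [Submodule.span_le]
    rintro _ ⟨i, rfl⟩
    fin_cases i
    · exact hM a ha
    · exact hM b hb
    · exact hM c hc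
  have h3 := Submodule.finrank_mono h2
  rw [finrank_span_eq_card h, Fintype.card_fin] at h3
  omega

end Pool.Agent.Y206.G
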