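import Pool.Agent.Y206.Q.Special

set_option autoImplicit false
open MvPolynomial
open Pool.Agent.Helper947.Geo

namespace Pool.Agent.Y206.G

/-- **through every point there is a plane with `m + 2` points and a collinear triple** -/
theorem special {K : Type} [Fintype K] [DecidableEq K]
    (z : K → Fin 4 → ℂ) (hsp : Submodule.span ℂ (Set.range z) = ⊤)
    (h2 : ∀ i j, i ≠ j → LinearIndependent ℂ ![z i, z j])
    (hz : ∀ k, z k ≠ 0)
    (m : ℕ) (hm : 1 ≤ m) (φ : MvPolynomial (Fin 4) ℂ) (hφ : φ ≠ 0)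
    (hA : ∀ P, eval P φ ≠ 0 → Module.finrank ℂ (relSpace z m P) = 1)
    (hB : ∀ P, eval P φ ≠ 0 → ∀ c ∈ relSpace z m P, c ≠ 0 → ∀ k, c k ≠ 0)
    (hC : ∀ P, eval P φ ≠ 0 → Module.finrank ℂ (relSpace z (m - 1) P) ≤ 3)
    (hcard : Fintype.card K ≤ (2 + m).choose 2) (k₀ : K) :
    ∃ (ξ : Fin 4 → ℂ) (W : Finset K), ξ ≠ 0 ∧ k₀ ∈ W ∧ (∀ k ∈ W, ξ ⬝ᵥ z k = 0) ∧
      m + 2 ≤ W.card ∧ ∃ i ∈ W, ∃ j ∈ W, ∃ k ∈ W, i ≠ j ∧ i ≠ k ∧ j ≠ k ∧
        ¬ LinearIndependent ℂ ![z i, z j, z k] := by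
  classical
  by_contra hcon
  have hno : ∀ (ξ : Fin 4 → ℂ) (W : Finset K), ξ ≠ 0 → k₀ ∈ W → (∀ k ∈ W, ξ ⬝ᵥ z k = 0) →
      m + 2 ≤ W.card → ∀ i ∈ W, ∀ j ∈ W, ∀ k ∈ W, i ≠ j → i ≠ k → j ≠ k →
        LinearIndependent ℂ ![z i, z j, z k] := by
    intro ξ W h1 h2 h3 h4 i hi j hj k hk hij hik hjk
    by_contra h5
    exact hcon ⟨ξ, W, h1, h2, h3, h4, i, hi, j, hj, k, hk, hij, hik, hjk, h5⟩
  obtain ⟨D, l, Q, g, hl0, hlD, hl, hprim, hQ, hg, hstar, hQprim, hind⟩ :=
    setup (by norm_num) z hsp m hm φ hφ hA hB hC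
  obtain ⟨s, η, μ, hdQ, hirr, hpair, hμ, hsum, hord, hinv⟩ := exists_kappa2 z D (D + m + 4 - 2)
    (span_dual z hsp) l hl0 hlD Q hQ g hg hstar hQprim m hl hprim hind
  set κ := ∏ i, lf (η i) ^ μ i with hκ
  have hκ0 : κ ≠ 0 :=
    Finset.prod_ne_zero_iff.mpr (fun i _ => pow_ne_zero _ (hirr i).ne_zero)
  have hκh : κ.IsHomogeneous (D + m + 2) := by
    have h1 : D + m + 2 = ∑ i, μ i := by rw [hsum]; omega
    rw [h1]
    exact IsHomogeneous.prod _ _ _ fun i _ => pow_homog _ _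
  have hη0 : ∀ i, η i ≠ 0 := by
    intro i h0
    apply (hirr i).ne_zero
    rw [h0]
    simp [lf]
  have hsys : Sys z m D (D + m + 2) l κ :=
    ⟨⟨k₀, hl0 k₀⟩, hκ0, hlD, hκh, hinv, hl, fun c _ h => hind c h⟩
  -- the sets
  set W : Fin s → Finset K := fun i => Finset.univ.filter (fun k => ¬ lf (η i) ∣ l k) with hW
  have hWm : ∀ i k, k ∈ W i ↔ ¬ lf (η i) ∣ l k := fun i k => by simp [hW]
  have hWη : ∀ i, ∀ k ∈ W i, η i ⬝ᵥ z k = 0 := by
    intro i k hk
    by_contra hne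
    obtain ⟨ν, hν, -⟩ := hord i k hne
    apply (hWm i k).mp hk
    rw [hν]
    exact Dvd.dvd.mul_right (dvd_pow_self _ (by have := hμ i; omega)) _
  have hWcard : ∀ i, m + 2 ≤ (W i).card := by
    intro i
    obtain ⟨ξ, hξ0, hass, hξW, hξU⟩ := pole_lin z l Q g hstar m hl hind (lf (η i)) (hirr i)
      (hdQ i) (hQprim _ (hirr i) (hdQ i)) (hprim _ (hirr i))
    obtain ⟨ψ, hψ1, hψ2⟩ := g4_off_lines le_rfl z (lf (η i)) (hirr i)
    obtain ⟨P, hP0, hP⟩ := exists_point (lf (η i)) (ψ * ∏ k ∈ W i, l k) (hirr i) (by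
      intro h
      rcases (hirr i).prime.dvd_or_dvd h with h | h
      · exact hψ1 h
      · rw [Prime.dvd_finsetProd_iff (hirr i).prime] at h
        obtain ⟨k, hk, hk2⟩ := h
        exact (hWm i k).mp hk hk2)
    rw [map_mul, map_prod] at hP
    have hoff := hψ2 P (left_ne_zero_of_mul hP)
    have hlP := Finset.prod_ne_zero_iff.mp (right_ne_zero_of_mul hP)
    have hPne : P ≠ 0 := by
      rintro rfl
      exact hoff k₀ k₀ (Submodule.zero_mem _)
    have hrank : 1 + 2 ≤ Module.finrank ℂ (Submodule.span ℂ {y | ∃ k ∈ W i, y = z k}) := by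
      obtain ⟨u, hu1, hu2, -⟩ := exists_ker_basis (f := 3) ξ hξ0
      have h3 : Submodule.span ℂ (Set.range u) ≤
          Submodule.span ℂ {y | ∃ k ∈ W i, y = z k} := by
        rw [Submodule.span_le]
        rintro _ ⟨j, rfl⟩
        have h4 := hξU (u j) (by rw [dotProduct_comm]; exact hu2 j)
        have h5 : {y | ∃ k, ¬ lf (η i) ∣ l k ∧ y = z k} = {y | ∃ k ∈ W i, y = z k} := by
          ext y
          simp only [Set.mem_ofPred_eq, hWm]
        rw [h5] at h4
        exact h4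
      have h6 := Submodule.finrank_mono h3
      rw [finrank_span_eq_card hu1, Fintype.card_fin] at h6
      omega
    obtain ⟨m', hm'⟩ : ∃ m', m = m' + 1 := ⟨m - 1, by omega⟩
    rw [hm'] at hl
    have h7 := count z m' P hPne (fun k => eval P (l k)) (hl P hPne) (W i) hlP
      (fun k hk => by
        have h8 : lf (η i) ∣ l k := by
          by_contra h9
          exact hk ((hWm i k).mpr h9)
        obtain ⟨q, hq⟩ := h8
        rw [hq, map_mul, hP0, zero_mul])
      (fun k _ j _ => hoff k j) (fun k _ j _ => h2 k j) (fun k _ => hz k) hrank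
    omega
  -- simple poles
  have hone : ∀ i, η i ⬝ᵥ z k₀ = 0 → μ i = 1 := by
    intro i hi
    have hsub : ∀ k ∈ insert k₀ (W i), η i ⬝ᵥ z k = 0 := by
      intro k hk
      rcases Finset.mem_insert.mp hk with rfl | hk
      · exact hi
      · exact hWη i k hk
    have h3 := hno (η i) (insert k₀ (W i)) (hη0 i) (Finset.mem_insert_self _ _) hsub
      ((hWcard i).trans (Finset.card_le_card (Finset.subset_insert _ _)))
    have hκe : κ = lf (η i) ^ μ i * ∏ j ∈ Finset.univ.erase i, lf (η j) ^ μ j := by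
      rw [hκ, Finset.mul_prod_erase Finset.univ (fun j => lf (η j) ^ μ j) (Finset.mem_univ i)]
    have h4 := mu_one hsys h2 hz (η i) (hη0 i) (hirr i) (μ i) _ hκe (by
      intro h
      rw [Prime.dvd_finsetProd_iff (hirr i).prime] at h
      obtain ⟨j, hj, hj2⟩ := h
      exact hpair i j (Finset.ne_of_mem_erase hj).symm ((hirr i).prime.dvd_of_dvd_pow hj2))
      (hprim _ (hirr i)) (fun k hk => hWη i k ((hWm i k).mpr hk))
      (fun a b c ha hb hc hab hac hbc => h3 a (Finset.mem_insert_of_mem ((hWm i a).mpr ha)) b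
        (Finset.mem_insert_of_mem ((hWm i b).mpr hb)) c
        (Finset.mem_insert_of_mem ((hWm i c).mpr hc)) hab hac hbc)
    have := hμ i
    omega
  -- the planes through the point
  set J := Finset.univ.filter (fun i => k₀ ∈ W i) with hJ
  have hdvd : ∀ i ∈ Finset.univ.filter (fun i => ¬ k₀ ∈ W i), lf (η i) ^ μ i ∣ l k₀ := by
    intro i hi
    by_cases h0 : η i ⬝ᵥ z k₀ = 0
    · rw [hone i h0, pow_one]
      by_contra h1
      exact (Finset.mem_filter.mp hi).2 ((hWm i k₀).mpr h1)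
    · obtain ⟨ν, hν, -⟩ := hord i k₀ h0
      exact ⟨ν, hν⟩
  have hprod : ∏ i ∈ Finset.univ.filter (fun i => ¬ k₀ ∈ W i), lf (η i) ^ μ i ∣ l k₀ := by
    refine Finset.prod_dvd_of_isRelPrime ?_ hdvd
    intro i _ j _ hij
    exact (((hirr i).isRelPrime_iff_not_dvd.mpr (hpair i j hij)).pow_left).pow_right
  have hdeg : ∑ i ∈ Finset.univ.filter (fun i => ¬ k₀ ∈ W i), μ i ≤ D := by
    obtain ⟨q, hq⟩ := hprod
    have hq0 : q ≠ 0 := by
      rintro rfl
      rw [mul_zero] at hq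
      exact hl0 k₀ hq
    have hp0 : ∏ i ∈ Finset.univ.filter (fun i => ¬ k₀ ∈ W i), lf (η i) ^ μ i ≠ 0 :=
      Finset.prod_ne_zero_iff.mpr (fun i _ => pow_ne_zero _ (hirr i).ne_zero)
    have h5 := totalDegree_mul_of_isDomain hp0 hq0
    have h6 : (∏ i ∈ Finset.univ.filter (fun i => ¬ k₀ ∈ W i), lf (η i) ^ μ i).IsHomogeneous
        (∑ i ∈ Finset.univ.filter (fun i => ¬ k₀ ∈ W i), μ i) :=
      IsHomogeneous.prod _ _ _ fun i _ => pow_homog _ _
    rw [← hq, (hlD k₀).totalDegree (hl0 k₀), h6.totalDegree hp0] at h5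
    omega
  have hJcard : m + 2 ≤ J.card := by
    have h5 := Finset.sum_filter_add_sum_filter_not (Finset.univ : Finset (Fin s))
      (fun i => k₀ ∈ W i) μ
    rw [hsum] at h5
    have h6 : ∑ i ∈ Finset.univ.filter (fun i => k₀ ∈ W i), μ i = J.card := by
      rw [Finset.card_eq_sum_ones]
      refine Finset.sum_congr rfl fun i hi => ?_
      exact hone i (hWη i k₀ (Finset.mem_filter.mp hi).2)
    rw [h6] at h5
    omega
  -- counting
  obtain ⟨J', hJ'1, hJ'2⟩ := Finset.exists_subset_card_eq hJcard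
  have hVV := count_sets (m + 1) (fun i => (W i).erase k₀) J' (by
      intro i hi
      have h5 := (Finset.mem_filter.mp (hJ'1 hi)).2
      show m + 1 ≤ ((W i).erase k₀).card
      rw [Finset.card_erase_of_mem h5]
      have := hWcard i
      omega) (by
      intro i hi j hj hij
      have hi0 := (Finset.mem_filter.mp (hJ'1 hi)).2
      have hj0 := (Finset.mem_filter.mp (hJ'1 hj)).2
      rw [Finset.card_le_one]
      intro a ha b hb
      by_contra hab
      simp only [Finset.mem_inter, Finset.mem_erase] at ha hb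
      have hli : LinearIndependent ℂ ![η i, η j] := by
        rw [LinearIndependent.pair_iff' (hη0 i)]
        intro c hc
        apply hpair i j hij
        refine ⟨C c, ?_⟩
        rw [← hc]
        simp only [lf, Pi.smul_apply, smul_eq_mul, C_mul, Finset.sum_mul]
        exact Finset.sum_congr rfl fun x _ => by ring
      exact dep_of_kernels (η i) (η j) hli (z k₀) (z a) (z b) ⟨hWη i k₀ hi0, hWη j k₀ hj0⟩
        ⟨hWη i a ha.1.2, hWη j a ha.2.2⟩ ⟨hWη i b hb.1.2, hWη j b hb.2.2⟩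
        (hno (η i) (W i) (hη0 i) hi0 (hWη i) (hWcard i) k₀ hi0 a ha.1.2 b hb.1.2
          (Ne.symm ha.1.1) (Ne.symm hb.1.1) hab))
  have hle : (J'.biUnion fun i => (W i).erase k₀).card + 1 ≤ Fintype.card K := by
    have h5 : (J'.biUnion fun i => (W i).erase k₀) ⊆ Finset.univ.erase k₀ := by
      intro x hx
      obtain ⟨i, -, hi⟩ := Finset.mem_biUnion.mp hx
      exact Finset.mem_erase.mpr ⟨(Finset.mem_erase.mp hi).1, Finset.mem_univ _⟩
    have h6 := Finset.card_le_card h5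
    rw [Finset.card_erase_of_mem (Finset.mem_univ _), Finset.card_univ] at h6
    have h7 : 0 < Fintype.card K := Fintype.card_pos_iff.mpr ⟨k₀⟩
    omega
  rw [hJ'2] at hVV
  have e1 : (m + 2) * (m + 1) = 2 * (m + 2).choose 2 := by
    have h8 : (m + 2) * (m + 2 - 1) / 2 = (m + 2).choose 2 := (Nat.choose_two_right (m + 2)).symm
    have h9 : 2 ∣ (m + 2) * (m + 2 - 1) := by
      have : m + 2 - 1 = m + 1 := by omega
      rw [this, mul_comm]
      exact (Nat.even_mul_succ_self (m + 1)).two_dvd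
    have h10 : m + 2 - 1 = m + 1 := by omega
    rw [← h8, Nat.mul_div_cancel' h9, h10]
  rw [add_comm 2 m] at hcard
  omega

end Pool.Agent.Y206.G
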