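import Pool.Agent.Y206.Q.Kap2

set_option autoImplicit false
open MvPolynomial
open Pool.Agent.Helper947.Geo

namespace Pool.Agent.Y206.G

/-- restriction of a system to a given polar hyperplane -/
theorem Sys.step_at {f : ℕ} (hf : 2 ≤ f) {K : Type} [Fintype K] {y : K → Fin (f + 1) → ℂ}
    {m a b : ℕ} {p : K → MvPolynomial (Fin (f + 1)) ℂ} {q : MvPolynomial (Fin (f + 1)) ℂ}
    (h : Sys y m a b p q) (ξ : Fin (f + 1) → ℂ) (hξ0 : ξ ≠ 0) (hirr : Irreducible (lf ξ))
    (α β : ℕ) (p₁ : K → MvPolynomial (Fin (f + 1)) ℂ) (q₁ : MvPolynomial (Fin (f + 1)) ℂ)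
    (hpe : ∀ k, p k = lf ξ ^ α * p₁ k) (hqe : q = lf ξ ^ β * q₁) (hq₁ : ¬ lf ξ ∣ q₁)
    (k₂ : K) (hk₂ : ¬ lf ξ ∣ p₁ k₂) (hys : ∀ k, ¬ lf ξ ∣ p₁ k → y k ⬝ᵥ ξ = 0) :
    ∃ (u : Fin f → Fin (f + 1) → ℂ) (y' : K → Fin f → ℂ)
      (p' : K → MvPolynomial (Fin f) ℂ) (q' : MvPolynomial (Fin f) ℂ),
      Sys y' m (a - α) (b - β) p' q' ∧ α ≤ a ∧ β ≤ b ∧
      (∀ k, p' k ≠ 0 → ¬ lf ξ ∣ p₁ k ∧ ∑ j, y' k j • u j = y k) := by
  classical
  obtain ⟨u, hui, huξ, husp⟩ := exists_ker_basis ξ hξ0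
  have hlam0 := lf_ne hξ0
  -- coordinates
  have hy' : ∀ k, ∃ c : Fin f → ℂ, ¬ lf ξ ∣ p₁ k → ∑ j, c j • u j = y k := by
    intro k
    by_cases hk : lf ξ ∣ p₁ k
    · exact ⟨0, fun h1 => absurd hk h1⟩
    · obtain ⟨c, hc⟩ := husp (y k) (hys k hk)
      exact ⟨c, fun _ => hc⟩
  choose y' hy' using hy'
  have hker : ∀ P, eval P (lf ξ) = 0 → ∃ x : Fin f → ℂ, ∑ j, x j • u j = P := by
    intro P hP
    rw [eval_lf, dotProduct_comm] at hP
    exact husp P hP
  have hsub0 : ∀ g : MvPolynomial (Fin (f + 1)) ℂ, sub u g = 0 ↔ lf ξ ∣ g := by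
    intro g
    constructor
    · intro hg
      apply dvd_of_vanish hirr
      intro P hP
      obtain ⟨x, rfl⟩ := hker P hP
      rw [← eval_sub, hg, map_zero]
    · rintro ⟨s, rfl⟩
      apply MvPolynomial.funext
      intro x
      rw [eval_sub, map_mul, eval_lf, map_zero]
      have : ξ ⬝ᵥ ∑ j, x j • u j = 0 := by
        rw [dotProduct_sum]
        refine Finset.sum_eq_zero fun j _ => ?_
        rw [dotProduct_smul, dotProduct_comm, huξ j, smul_zero]
      rw [this, zero_mul]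
  have hp₂0 : p₁ k₂ ≠ 0 := by
    intro h0
    exact hk₂ (by rw [h0]; exact dvd_zero _)
  have hαa : α ≤ a := le_of_factor hξ0 (h.hpa k₂)
    (by rw [hpe k₂]; exact mul_ne_zero (pow_ne_zero _ hlam0) hp₂0) (hpe k₂)
  have hβb : β ≤ b := le_of_factor hξ0 h.hqb h.hq hqe
  have hrel₁ : Rel y m p₁ := by
    apply rel_of_generic y m p₁ (lf ξ * X (⟨0, by omega⟩ : Fin (f + 1)))
      (mul_ne_zero hlam0 (X_ne_zero _))
    intro P hP η hη
    rw [map_mul, eval_X] at hP
    have hP1 := left_ne_zero_of_mul hP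
    have hP0 : P ≠ 0 := by
      rintro rfl
      exact right_ne_zero_of_mul hP rfl
    have h1 := h.hrel P hP0 η hη
    simp only [hpe, map_mul, map_pow, mul_assoc, ← Finset.mul_sum] at h1
    exact (mul_eq_zero.mp h1).resolve_left (pow_ne_zero _ hP1)
  refine ⟨u, y', fun k => sub u (p₁ k), sub u q₁, ?_, hαa, hβb, ?_⟩
  · refine ⟨⟨k₂, ?_⟩, ?_, ?_, ?_, ?_, ?_, ?_⟩
    · intro h0
      exact hk₂ ((hsub0 _).mp h0)
    · intro h0
      exact hq₁ ((hsub0 _).mp h0)
    · intro k
      apply sub_hom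
      apply homog_cancel (pow_homog ξ α) (pow_ne_zero _ hlam0)
      rw [← hpe k, Nat.add_sub_cancel' hαa]
      exact h.hpa k
    · apply sub_hom
      apply homog_cancel (pow_homog ξ β) (pow_ne_zero _ hlam0)
      rw [← hqe, Nat.add_sub_cancel' hβb]
      exact h.hqb
    · intro k
      by_cases hk : lf ξ ∣ p₁ k
      · have h0 := (hsub0 _).mpr hk
        rw [h0]
        simp [DD]
      · rw [sub_DD, sub_DD, hy' k hk, ← map_mul, ← map_mul]
        congr 1
        have h1 := h.hinv k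
        have hz : DD (y k) (lf ξ) = 0 := by
          rw [DD_lf, dotProduct_comm, hys k hk, C_0]
        have hzp : ∀ n : ℕ, DD (y k) (lf ξ ^ n) = 0 := by
          intro n
          have h2 := mul_DD_pow (y k) (lf ξ) n
          rw [hz, mul_zero] at h2
          exact (mul_eq_zero.mp h2).resolve_left hlam0
        rw [hpe k, hqe, DD_mul, DD_mul, hzp, hzp, zero_mul, zero_mul, zero_add, zero_add] at h1
        apply mul_left_cancel₀ (pow_ne_zero (α + β) hlam0)
        calc lf ξ ^ (α + β) * (q₁ * DD (y k) (p₁ k))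
            = lf ξ ^ β * q₁ * (lf ξ ^ α * DD (y k) (p₁ k)) := by ring
          _ = lf ξ ^ α * p₁ k * (lf ξ ^ β * DD (y k) q₁) := h1
          _ = _ := by ring
    · intro x hx η hη
      obtain ⟨ζ, hζ⟩ := exists_coord u hui η
      have hP0 : ∑ j, x j • u j ≠ 0 := by
        intro h0
        apply hx
        exact funext (Fintype.linearIndependent_iff.mp hui x h0)
      have h1 := hrel₁ (∑ j, x j • u j) hP0 ζ (by
        rw [sum_dotProduct]
        simp only [smul_dotProduct, hζ, smul_eq_mul]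
        exact hη)
      rw [← h1]
      refine Finset.sum_congr rfl fun k _ => ?_
      simp only [eval_sub]
      by_cases hk : lf ξ ∣ p₁ k
      · have h0 := (hsub0 _).mpr hk
        rw [← eval_sub, h0, map_zero, zero_mul, zero_mul]
      · congr 2
        rw [← hy' k hk, sum_dotProduct]
        simp only [smul_dotProduct, hζ, smul_eq_mul]
        rfl
    · intro c hc hη
      apply h.hind c
      · intro k hk
        apply hc
        have h1 := hpe k
        rw [hk] at h1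
        have h2 := (mul_eq_zero.mp h1.symm).resolve_left (pow_ne_zero _ hlam0)
        simp only [h2, map_zero]
      · intro ζ
        rw [← hη (fun j => u j ⬝ᵥ ζ)]
        refine Finset.sum_congr rfl fun k _ => ?_
        by_cases hk : lf ξ ∣ p₁ k
        · have h0 := (hsub0 _).mpr hk
          rw [hc k h0, zero_mul, zero_mul]
        · congr 2
          rw [← hy' k hk, sum_dotProduct]
          simp only [smul_dotProduct, smul_eq_mul]
          rfl
  · intro k hk
    have hk' : ¬ lf ξ ∣ p₁ k := fun h1 => hk ((hsub0 _).mpr h1)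
    exact ⟨hk', hy' k hk'⟩

end Pool.Agent.Y206.G
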